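import Pool.Agent.FS.IndexedSquare.B2

/-! The stationary set that does not reflect. -/

namespace Pool.Agent.FS.IndexedSquare

open ZFSet Pool.Agent.Lib.MP_329f2d_lc Pool.Agent.Lib.MP_a2bc17_lc

set_option synthInstance.maxSize 100000

theorem club_acc {δ Y : V} (δo : IsOrdinal δ) (lim : ∀ β ∈ δ, insert β β ∈ δ) (Y2 : Unb Y δ) :
    Club (ZFSet.sep (fun γ => (∃ β ∈ Y, γ = insert β β) ∨ Unb Y γ) δ) δ :=
  ⟨fun γ a => (mem_sep.1 a).1, fun α hα => by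
    obtain ⟨β, a1, a2, a3⟩ := Y2 α hα
    exact ⟨_, mem_sep.2 ⟨lim β a2, .inl ⟨β, a1, rfl⟩⟩, lim β a2, mem_insert_of_mem _ a3⟩,
  fun γ hγ _ h2 => mem_sep.2 ⟨hγ, .inr fun α hα => by
    obtain ⟨γ1, -, a1, a2⟩ := h2 α hα
    obtain ⟨γ2, a3, a4, a5⟩ := h2 γ1 a1
    have o2 := (δo.mem hγ).mem a4
    rcases (mem_sep.1 a3).2 with ⟨β, a6, rfl⟩ | a6
    · refine ⟨β, a6, (δo.mem hγ).mem_trans (mem_insert _ _) a4, ?_⟩
      rcases mem_insert_iff.1 a5 with rfl | a5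
      exacts [a2, (o2.mem (mem_insert _ _)).mem_trans a2 a5]
    · obtain ⟨β, a7, a8, a9⟩ := a6 α (o2.mem_trans a2 a5)
      exact ⟨β, a7, (δo.mem hγ).mem_trans a8 a4, a9⟩⟩⟩

theorem club_tail {δ α : V} (δo : IsOrdinal δ) (lim : ∀ β ∈ δ, insert β β ∈ δ) (hα : α ∈ δ) :
    Club (ZFSet.sep (fun γ => α ∈ γ) δ) δ :=
  ⟨fun γ a => (mem_sep.1 a).1, fun β hβ => by
    have u := union_mem δo hα hβ
    have uo := isOrdinal_succ (δo.mem u)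
    refine ⟨_, mem_sep.2 ⟨lim _ u, ?_⟩, lim _ u, ?_⟩
    · exact (δo.mem hα).mem_of_subset_of_mem uo (fun z a => mem_union.2 (.inl a))
        (mem_insert _ _)
    · exact (δo.mem hβ).mem_of_subset_of_mem uo (fun z a => mem_union.2 (.inr a))
        (mem_insert _ _),
  fun γ hγ h0 h2 => mem_sep.2 ⟨hγ, by
    obtain ⟨β, a1, a2, -⟩ := h2 ∅ (empty_mem_of_ord (δo.mem hγ) h0)
    exact (δo.mem hγ).mem_trans (mem_sep.1 a1).2 a2⟩⟩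

theorem mem_of_otp {f ρ B ν : V} (ρo : IsOrdinal ρ) (νo : IsOrdinal ν) (f1 : Onto f ρ B)
    (Bo : ∀ x ∈ B, IsOrdinal x)
    (f2 : ∀ ξ η x y, pair ξ x ∈ f → pair η y ∈ f → ξ ∈ η → x ∈ y)
    (h : ∀ x ∈ insert ν ν, x ∈ B) : ν ∈ ρ := by
  by_contra hc
  have sb : ρ ⊆ ν := (νo.notMem_iff_subset ρo).1 hc
  have key : ∀ ξ, ξ ∈ ρ → ap f ξ ⊆ ξ := fun ξ => by
    induction ξ using ZFSet.inductionOn with
    | _ ξ ih =>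
    intro hξ
    refine ((ρo.mem hξ).notMem_iff_subset (Bo _ (isFunc_ap f1.1 hξ).2)).1 fun a => ?_
    obtain ⟨η, hη, e⟩ := f1.ap (h ξ (mem_insert_of_mem _ (sb hξ)))
    rcases (ρo.mem hη).mem_trichotomous (ρo.mem hξ) with c | rfl | c
    · have := ih η c hη
      rw [e] at this
      exact mem_irrefl _ (this c)
    · rw [e] at a; exact mem_irrefl _ a
    · have := f2 _ _ _ _ (isFunc_ap f1.1 hξ).1 (isFunc_ap f1.1 hη).1 c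
      rw [e] at this
      exact mem_asymm a this
  obtain ⟨ξ, hξ, e⟩ := f1.ap (h ν (mem_insert _ _))
  have := key ξ hξ
  rw [e] at this
  exact mem_irrefl _ (this (sb hξ))

/-- The initial segment of `Z` below `δ`, as a condition. -/
noncomputable def rs (Z δ : V) : V := pair δ (ZFSet.sep (fun p => fst p ∈ δ) Z)

section
variable {K : Set V → Prop} [Cl K] {Γ : Type} [Countable Γ]
  (r s : Set V → (Γ → V) → V) [Tm K r] [Tm K s]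
instance tm_rs : Tm K fun W v => rs (r W v) (s W v) := by unfold rs; infer_instance
end

theorem mem_rs {Z δ p : V} : p ∈ snd (rs Z δ) ↔ p ∈ Z ∧ fst p ∈ δ := by
  rw [rs, snd_pair]; exact mem_sep

theorem main {N : Set V} (hN : ZFC N) (hc : N.Countable) {κ μ θ ν ρ0 c : V} (hμ : Regu N μ)
    (hθ : Regu N θ) (hμθ : μ ⊆ θ) (hκ : κ ∈ μ) (hν : Regu N ν) (hρ0 : Regu N ρ0) (hνρ : ν ∈ ρ0) (hρκ : ρ0 ∈ κ) (cN : c ∈ N)
    (cf : IsFunc (prod θ θ) ν c) (sa : Subadd c θ ν) (cl : θ = μ → ClosedCol c θ ν)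
    (su : StrUnb N c θ ν) :
    ∃ Q ∈ N, Po Q ∧ DirCl N Q μ ∧ (∃ H, Generic N Q H) ∧
      ∀ H, Generic N Q H → ¬ DeltaRefl (Ext N H) κ μ := by
  have hz : ZF N := hN.1.1
  have ho := hμ.ord
  have θo := hθ.ord
  have κo := ho.mem hκ
  have hνκ : ν ∈ κ := κo.mem_trans hνρ hρκ
  have hνμ := ho.mem_trans hνκ hκ
  obtain ⟨ν', n1, hνc, A, hA, hAl, n3⟩ := const_alg hz ho hμ.1.1 (hμ.succ hz hνμ)
  have hν' : ν' ∈ κ := hνc.2.1.mem_of_subset_of_mem κo n1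
    (κo.mem_trans (hρ0.succ hz hνρ) hρκ)
  obtain ⟨Q, hQ⟩ := exists_P hN hμ hθ
  refine ⟨Q, hQ.mem, hQ.po, hQ.dirCl hz hμ hθ hμθ, ?_, fun H hH hD => ?_⟩
  · obtain ⟨z, hz'⟩ : ∃ z, z ∈ Q := by
      by_contra h
      exact hQ.po.1 ((eq_empty Q).2 fun y hy => h ⟨y, hy⟩)
    obtain ⟨p, q, -, hp, -⟩ := hQ.po.2.1 z hz'
    exact (exists_generic hc hQ.po hp).imp fun _ h => h.1
  have hE := ext_zfc hz hQ.mem hQ.po hH hN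
  have ez : ZF (Ext N H) := hE.1.1
  have sub := subset_ext hz hQ.mem hQ.po hH
  have nn := fun {a b f} => no_new' (a := a) (b := b) (f := f) hN hμ hθ hμθ hQ hH hc
  have hκN := hz.mem hκ hμ.1.1
  have hZ := tm1 (K := ZF) (t := fun _ H => ⋃₀ img snd H) ez (self_mem_ext hz hQ.mem hQ.po hH)
  have Zi := fun {r γ} => Z_iff' (r := r) (γ := γ) hQ hH
  have lg := fun {δ} => long' (δ := δ) hN hμ hθ hQ hH
  generalize hZd : (⋃₀ img snd H : V) = Z at hZ Zi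
  have gθ : ∀ δ ∈ μ, tp (rs Z δ) ∈ θ := fun δ hδ => by
    obtain ⟨r, hr, c0, c1⟩ := lg hδ
    exact tp_mem θo c0.tp fun p a =>
      snd_mem_tp ((Zi hr (c1 (mem_rs.1 a).2)).1 (mem_rs.1 a).1)
  have hS := (cls4 (K := ZF) (S := fun M Z κ ν c δ => δ ≠ ∅ ∧ Unb (img fst Z) δ ∧ CofLt M δ κ ∧
    ∀ j ∈ ν, ∃ a ∈ δ, ∀ z ∈ Z, fst z ∈ δ → a ∈ fst z → ¬ ColLe c (snd z) (tp (rs Z δ)) j) ez hZ
    (sub hκN) (sub hν.1.1) (sub cN)).sep ez (sub hμ.1.1)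
  set S := ZFSet.sep _ μ with hSd
  have Sm : ∀ δ, δ ∈ S ↔ δ ∈ μ ∧ δ ≠ ∅ ∧ Unb (img fst Z) δ ∧ CofLt (Ext N H) δ κ ∧
      ∀ j ∈ ν, ∃ a ∈ δ, ∀ z ∈ Z, fst z ∈ δ → a ∈ fst z →
        ¬ ColLe c (snd z) (tp (rs Z δ)) j := fun δ => mem_sep
  have st : Stat (Ext N H) S μ := by
    intro C hC hcl
    obtain ⟨f, hf, f1, fd, f2⟩ := Cls2.choice (W := Ext N H) hE.1 (R := fun α y => y ∈ C ∧ α ∈ y)
      (cls1 (K := ZF) (S := fun _ C z => snd z ∈ C ∧ fst z ∈ snd z) ez hC) (sub hμ.1.1)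
      fun α hα => by
        obtain ⟨β, a1, -, a2⟩ := hcl.2.1 α hα
        exact ⟨β, ez.mem a1 hC, a1, a2⟩
    obtain ⟨F, hF, hn, hv⟩ := exists_funNm hz hQ.mem hQ.po hH hc hμ.1.1 hμ.1.1 hf f1
    obtain ⟨p, hp, h1⟩ := total_below' hN hQ hH hμ.1.1 hμ.1.1 hF hn fun x hx =>
      ⟨_, hcl.1 (f2 x hx).1, (hv x hx _ (hcl.1 (f2 x hx).1)).1 (f1.pair_ap (fd ▸ hx))⟩
    obtain ⟨r, hr, c0, c1, c2, c3, c4, c5⟩ := meet' hN hQ hH (cls4 (K := ZF)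
      (S := fun M κ ν F c r => fst r ≠ ∅ ∧ Unb (img fst (snd r)) (fst r) ∧ CofLt M (fst r) κ ∧
        (∀ j ∈ ν, ∃ a ∈ fst r, ∀ z ∈ snd r, a ∈ fst z → ¬ ColLe c (snd z) (tp r) j) ∧
        ∀ α ∈ fst r, ∃ α' ∈ fst r, ∃ y ∈ fst r, α ⊆ α' ∧ In3 F r α' y) hz hκN hν.1.1 hF cN) hp
      fun q hq => dense hN hμ hθ hμθ hQ hν hρ0 hνρ (ho.mem_trans hρκ hκ) hνκ cN cf sa cl su hF
        (fun r r' x y a b => hn.mono _ _ _ _ a ((hQ.iff _ _).2 b))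
        (Generic.mem hz hQ.mem hH hp) h1 hq
    have rμ := c0.1.1
    have te : tp (rs Z (fst r)) = tp r := by
      ext z
      simp only [mem_tp, mem_rs]
      exact ⟨fun ⟨x, a, b⟩ => ⟨x, (Zi hr a.2).1 a.1, b⟩,
        fun ⟨x, a, b⟩ => ⟨x, ⟨(Zi hr (c0.1.2.1 x a)).2 a, c0.1.2.1 x a⟩, b⟩⟩
    refine ⟨fst r, (Sm _).2 ⟨rμ, c1, fun α hα => ?_, ?_, fun j hj => (c4 j hj).imp fun a b =>
      ⟨b.1, fun z a1 a2 => te ▸ b.2 z ((Zi hr a2).1 a1)⟩⟩, hcl.2.2 _ rμ c1 fun α hα => ?_⟩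
    · obtain ⟨_, a0, a2, a3⟩ := c2 α hα
      obtain ⟨z, a1, rfl⟩ := mem_img.1 a0
      exact ⟨_, mem_img.2 ⟨z, (Zi hr a2).2 a1, rfl⟩, a2, a3⟩
    · obtain ⟨τ, a1, g, a2, a3⟩ := c3
      exact ⟨τ, a1, g, sub a2, a3⟩
    · obtain ⟨α', a1, y, a2, a3, a4⟩ := c5 α hα
      have a5 := f1.ap_eq ((hv _ (ho.mem_trans a1 rμ) _ (ho.mem_trans a2 rμ)).2 ⟨r, hr, a4⟩)
      have a6 := f2 _ (ho.mem_trans a1 rμ)
      rw [a5] at a6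
      exact ⟨y, a6.1, a2, ((ho.mem rμ).mem hα).mem_of_subset_of_mem ((ho.mem rμ).mem a2) a3 a6.2⟩
  have hνμ' := ho.mem_trans hν' hκ
  obtain ⟨B, hB, B1, ρ, hρ, B2, ⟨f, hf, f1, f2⟩, B3⟩ := hD ν' hν' ⟨sub hνc.1, hνc.2.1,
    fun α hα ⟨f, hf, h⟩ => hνc.2.2 α hα ⟨f, nn (ho.mem_trans hα hνμ') hνc.1 hf h.1, h⟩⟩
    S hS (fun δ a => ((Sm δ).1 a).1) st (fun δ a => ((Sm δ).1 a).2.2.2.1) A (sub hA) hAl
  have hρμ := ho.mem_trans hρ hκ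
  have fN : f ∈ N := nn hρμ hμ.1.1 hf ⟨fun z a => by
    obtain ⟨x, a1, y, a2, rfl⟩ := mem_prod.1 (f1.1.1 a)
    exact pair_mem_prod.2 ⟨a1, B1.1 a2⟩, f1.1.2⟩
  have δμ : (⋃₀ B : V) ∈ μ := by
    obtain ⟨m, hm, hm'⟩ := hμ.bdd hρμ (t := fun x => ap f x)
      (tm2 (K := ZF) (t := fun _ f ρ => graph (fun x => ap f x) ρ) hz fN (hz.mem hρμ hμ.1.1))
      fun x hx => B1.1 (isFunc_ap f1.1 hx).2
    refine sUnion_mem ho hm fun x hx => ⟨B1.1 hx, ?_⟩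
    obtain ⟨ξ, hξ, rfl⟩ := f1.ap hx
    exact hm' ξ hξ
  have δo := ho.mem δμ
  have δN := hz.mem δμ hμ.1.1
  have lim : ∀ β ∈ (⋃₀ B : V), insert β β ∈ (⋃₀ B : V) := fun β hβ => by
    obtain ⟨x, hx, a⟩ := mem_sUnion.1 hβ
    obtain ⟨ξ, hξ, rfl⟩ := f1.ap hx
    have s1 := B2.succ ez hξ
    exact mem_sUnion.2 ⟨_, (isFunc_ap f1.1 s1).2, succ_mem_of_ord
      (ho.mem (B1.1 (isFunc_ap f1.1 s1).2))
      (f2 _ _ _ _ (isFunc_ap f1.1 hξ).1 (isFunc_ap f1.1 s1).1 (mem_insert _ _)) a⟩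
  have νρ : ν ∈ ρ := mem_of_otp B2.ord hν.ord f1 (fun x a => ho.mem (B1.1 a)) f2 (n3 B B1)
  have big : Big (Ext N H) (⋃₀ B) ν := big_of_incr hE B2 νρ hf
    (fun x hx => ho.mem (B1.1 (isFunc_ap f1.1 hx).2))
    (fun y hy x hx => f2 _ _ _ _ (isFunc_ap f1.1 (B2.ord.mem_trans hx hy)).1
      (isFunc_ap f1.1 hy).1 hx)
    fun z => ⟨fun a => by
      obtain ⟨x, hx, a⟩ := mem_sUnion.1 a
      obtain ⟨ξ, hξ, rfl⟩ := f1.ap hx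
      exact ⟨ξ, hξ, a⟩, fun ⟨x, hx, a⟩ => mem_sUnion.2 ⟨_, (isFunc_ap f1.1 hx).2, a⟩⟩
  generalize (⋃₀ B : V) = δ at *
  by_cases hu : Unb (img fst Z) δ
  · have βθ := gθ δ δμ
    have βE := sub (hz.mem βθ hθ.1.1)
    obtain ⟨i, hi, hX⟩ := pigeon' hE big δo (sub δN) (sub hν.1.1) hZ (sub cN) βE hu
      fun z a1 a2 => colLe_total cf (θo.mem_trans (snd_mem_tp (mem_rs.2 ⟨a1, a2⟩)) βθ) βθ
    have XE := tm1 (K := ZF) (t := fun _ X => img fst X) ez ((cls3 (K := ZF)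
      (S := fun _ c β i z => ColLe c (snd z) β i) ez (sub cN) βE
      (sub (hz.mem hi hν.1.1))).sep ez hZ)
    obtain ⟨γ, g1, g2⟩ := B3 _ ((cls1 (K := ZF) (S := fun _ Y γ =>
      (∃ β ∈ Y, γ = insert β β) ∨ Unb Y γ) ez XE).sep ez (sub δN))
      (club_acc δo lim fun α hα => by
        obtain ⟨z, a1, a2, a3, a4⟩ := hX α hα
        exact ⟨_, mem_img.2 ⟨z, mem_sep.2 ⟨a1, a4⟩, rfl⟩, a2, a3⟩)
    obtain ⟨γμ, -, s1, -, s2⟩ := (Sm γ).1 (mem_inter.1 g1).1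
    have γδ := (mem_sep.1 g2).1
    rcases (mem_sep.1 g2).2 with ⟨β, -, rfl⟩ | a
    · exact not_unb_succ s1
    · obtain ⟨u, hu', iu, j2⟩ : ∃ u ∈ ν, i ⊆ u ∧ ∀ z ∈ tp (rs Z γ),
          ColLe c z (tp (rs Z δ)) u → ColLe c z (tp (rs Z γ)) u := by
        rcases ((θo.mem (gθ γ γμ)).subset_iff_eq_or_mem (θo.mem βθ)).1 (fun z a => by
          obtain ⟨x, x1, x2⟩ := mem_tp.1 a
          exact mem_tp.2 ⟨x, mem_rs.2 ⟨(mem_rs.1 x1).1,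
            δo.mem_trans (mem_rs.1 x1).2 γδ⟩, x2⟩) with e | e
        · exact ⟨i, hi, fun _ a => a, fun z _ a => e ▸ a⟩
        · obtain ⟨i1, a1, a2⟩ := colLe_total cf (gθ γ γμ) βθ
          have u := union_mem hν.ord hi a1
          exact ⟨_, u, fun w a => mem_union.2 (.inl a), fun z b1 =>
            (sa _ βθ _ e z b1 _ u (a2.mono fun w a => mem_union.2 (.inr a))).2⟩
      obtain ⟨a0, b1, b2⟩ := s2 _ hu'
      obtain ⟨_, z0, z2, z3⟩ := a a0 b1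
      obtain ⟨z, z1, rfl⟩ := mem_img.1 z0
      obtain ⟨z4, z5⟩ := mem_sep.1 z1
      exact b2 z z4 z2 z3 (j2 _ (snd_mem_tp (mem_rs.2 ⟨z4, z2⟩)) (z5.mono iu))
  · simp only [Unb, not_forall] at hu
    obtain ⟨α, hα, hu⟩ := hu
    obtain ⟨γ, g1, g2⟩ := B3 _ ((cls1 (K := ZF) (S := fun _ α γ => α ∈ γ) ez
      (sub (hz.mem hα δN))).sep ez (sub δN)) (club_tail δo lim hα)
    obtain ⟨β, a1, a2, a3⟩ := ((Sm γ).1 (mem_inter.1 g1).1).2.2.1 α (mem_sep.1 g2).2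
    exact hu ⟨β, a1, δo.mem_trans a2 (mem_sep.1 g2).1, a3⟩

end Pool.Agent.FS.IndexedSquare
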