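import Pool.Agent.FS.IndexedSquare.Defs
import Pool.Agent.Lib.MP_a2bc17_lc.Small

/-! Points of large cofinality, the pigeonhole step, and closure points. -/

namespace Pool.Agent.FS.IndexedSquare

open ZFSet Pool.Agent.Lib.MP_329f2d_lc Pool.Agent.Lib.MP_a2bc17_lc

set_option synthInstance.maxSize 100000

section
variable {K : Set V → Prop} [Cl K] {Γ : Type} [Countable Γ]
  (r s t u : Set V → (Γ → V) → V) [Tm K r] [Tm K s] [Tm K t] [Tm K u]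
instance df_ColLe : Df K fun W v => ColLe (r W v) (s W v) (t W v) (u W v) := by
  have : (fun W v => ColLe (r W v) (s W v) (t W v) (u W v)) = fun W v =>
      ∃ j ∈ (⋃₀ ⋃₀ (r W v) : V), pair (pair (s W v) (t W v)) j ∈ r W v ∧ j ⊆ u W v := by
    funext W v
    exact propext ⟨fun ⟨j, a, b⟩ => ⟨j, right_mem_sUnion a, a, b⟩, fun ⟨j, _, a⟩ => ⟨j, a⟩⟩
  rw [this]; infer_instance
end

theorem ColLe.mono {c α β i j : V} (h : ColLe c α β i) (hij : i ⊆ j) : ColLe c α β j :=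
  h.imp fun _ a => ⟨a.1, fun _ b => hij (a.2 b)⟩

theorem colLe_total {c μ ν α β : V} (h : IsFunc (prod μ μ) ν c) (hα : α ∈ μ) (hβ : β ∈ μ) :
    ∃ i ∈ ν, ColLe c α β i :=
  have := isFunc_ap h (pair_mem_prod.2 ⟨hα, hβ⟩)
  ⟨_, this.2, _, this.1, fun _ a => a⟩

theorem ap_graph' {f : V → V} {a x : V} (hx : x ∈ a) : ap (graph f a) x = f x :=
  (fn_graph f a).ap_eq (pair_mem_graph.2 ⟨hx, rfl⟩)

/-- Every sequence of length at most `ν` into `γ` that lies in `M` is bounded in `γ`. -/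
def Big (M : Set V) (γ ν : V) : Prop :=
  ∀ (t : V → V), ∀ τ ∈ insert ν ν, graph t τ ∈ M → (∀ x ∈ τ, t x ∈ γ) → ∃ b ∈ γ, ∀ x ∈ τ, t x ∈ b

variable {M : Set V}

theorem big_of_incr (hM : ZFC M) {ρ ν f γ : V} (hρ : Regu M ρ) (hν : ν ∈ ρ) (hf : f ∈ M)
    (fo : ∀ x ∈ ρ, IsOrdinal (ap f x)) (inc : ∀ y ∈ ρ, ∀ x ∈ y, ap f x ∈ ap f y)
    (hγ : ∀ z, z ∈ γ ↔ ∃ x ∈ ρ, z ∈ ap f x) : Big M γ ν := by
  intro t τ hτ hg ht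
  have hz : ZF M := hM.1.1
  have hτρ : τ ∈ ρ := hρ.ord.mem_trans hτ (hρ.succ hz hν)
  have hτM := hz.mem hτρ hρ.1.1
  obtain ⟨k, hk, -, -, k2⟩ := Cls2.choice (W := M) hM.1
    (R := fun x η => η ∈ ρ ∧ ap (graph t τ) x ∈ ap f η)
    (cls3 (K := ZF) (S := fun _ ρ g f z => snd z ∈ ρ ∧ ap g (fst z) ∈ ap f (snd z)) hz hρ.1.1 hg hf)
    hτM fun x hx => by
      obtain ⟨η, a1, a2⟩ := (hγ _).1 (ht x hx)
      exact ⟨η, hz.mem a1 hρ.1.1, a1, by rwa [ap_graph' hx]⟩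
  obtain ⟨m, hm, hm'⟩ := hρ.bdd hτρ (t := fun x => ap k x)
    (tm2 (K := ZF) (t := fun _ k τ => graph (fun x => ap k x) τ) hz hk hτM) fun x hx => (k2 x hx).1
  refine ⟨ap f m, (hγ _).2 ⟨_, hρ.succ hz hm, inc _ (hρ.succ hz hm) _ (mem_insert _ _)⟩,
    fun x hx => ?_⟩
  have a := (k2 x hx).2
  rw [ap_graph' hx] at a
  rcases ((hρ.ord.mem (k2 x hx).1).subset_iff_eq_or_mem (hρ.ord.mem hm)).1 (hm' x hx) with e | e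
  · rwa [e] at a
  · exact (fo m hm).mem_trans a (inc m hm _ e)

theorem pigeon (hM : ZFC M) {γ ν Z c : V} (hb : Big M γ ν) (ho : IsOrdinal γ) (hγ : γ ∈ M)
    (hν : ν ∈ M) (hZ : Z ∈ M) (hc : c ∈ M) (hu : Unb Z γ) (ht : ∀ z ∈ γ, ∃ i ∈ ν, ColLe c z γ i) :
    ∃ i ∈ ν, ∀ α ∈ γ, ∃ z ∈ Z, z ∈ γ ∧ α ∈ z ∧ ColLe c z γ i := by
  have hz : ZF M := hM.1.1
  by_contra hcon
  obtain ⟨k, hk, -, -, k2⟩ := Cls2.choice (W := M) hM.1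
    (R := fun i α => α ∈ γ ∧ ∀ z ∈ Z, z ∈ γ → α ∈ z → ¬ ColLe c z γ i)
    (cls3 (K := ZF) (S := fun _ γ Z c w => snd w ∈ γ ∧ ∀ z ∈ Z, z ∈ γ → snd w ∈ z →
      ¬ ColLe c z γ (fst w)) hz hγ hZ hc) hν fun i hi => by
      by_contra h2
      refine hcon ⟨i, hi, fun α hα => ?_⟩
      by_contra h3
      exact h2 ⟨α, hz.mem hα hγ, hα, fun z a1 a2 a3 a4 => h3 ⟨z, a1, a2, a3, a4⟩⟩
  obtain ⟨b, hb1, hb2⟩ := hb (fun x => ap k x) ν (mem_insert _ _)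
    (tm2 (K := ZF) (t := fun _ k τ => graph (fun x => ap k x) τ) hz hk hν) fun x hx => (k2 x hx).1
  obtain ⟨z, a1, a2, a3⟩ := hu b hb1
  obtain ⟨i, hi, a4⟩ := ht z a2
  exact (k2 i hi).2 z a1 a2 ((ho.mem a2).mem_trans (hb2 i hi) a3) a4

/-- The iterates of `h`. -/
noncomputable def It (h : V) : V → V := rrec id fun _ g => ap h (⋃₀ ran g)

theorem It_eq (h ξ : V) : It h ξ = ap h (⋃₀ img (It h) ξ) := by
  rw [It, rrec_eq fun _ => rank_lt_of_mem, ran_graph]; rfl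

section
variable {K : Set V → Prop} [Cl K] {Γ : Type} [Countable Γ]
  (r u : Set V → (Γ → V) → V) [Tm K r] [Tm K u]
instance tm_It : Tm K fun W v => It (r W v) (u W v) :=
  tm_rrec (fun _ _ x => x) (fun W v _ g => ap (r W v) (⋃₀ ran g))
    (fun _ _ _ _ => rank_lt_of_mem) u
end

theorem closure (hM : ZFC M) {μ ρ h : V} (hμ : Regu M μ) (hρ : Regu M ρ) (hρμ : ρ ∈ μ)
    (hh : h ∈ M) (h1 : ∀ b ∈ μ, ap h b ∈ μ ∧ b ∈ ap h b) :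
    ∃ β ∈ μ, β ≠ ∅ ∧ (∀ ν ∈ ρ, Big M β ν) ∧ ∀ x ∈ β, ∀ y ∈ β, ∃ b ∈ β, x ∈ b ∧ y ∈ b ∧ ap h b ∈ β := by
  have hz : ZF M := hM.1.1
  have ho := hμ.ord
  have sup : ∀ ξ ∈ μ, (∀ η ∈ ξ, It h η ∈ μ) → (⋃₀ img (It h) ξ : V) ∈ μ := fun ξ hξ a => by
    obtain ⟨m, hm, hm'⟩ := hμ.bdd hξ (t := fun η => It h η)
      (tm2 (K := ZF) (t := fun _ h ξ => graph (fun η => It h η) ξ) hz hh (hz.mem hξ hμ.1.1)) a
    refine sUnion_mem ho hm fun x hx => ?_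
    obtain ⟨η, hη, rfl⟩ := mem_img.1 hx
    exact ⟨a η hη, hm' η hη⟩
  have inμ : ∀ ξ, ξ ∈ μ → It h ξ ∈ μ := fun ξ => by
    induction ξ using ZFSet.inductionOn with
    | _ ξ ih =>
    intro hξ
    rw [It_eq]
    exact (h1 _ (sup ξ hξ fun η hη => ih η hη (ho.mem_trans hη hξ))).1
  have sup' : ∀ ξ ∈ μ, (⋃₀ img (It h) ξ : V) ∈ μ := fun ξ hξ =>
    sup ξ hξ fun η hη => inμ η (ho.mem_trans hη hξ)
  have up : ∀ ξ ∈ μ, (⋃₀ img (It h) ξ : V) ∈ It h ξ := fun ξ hξ => by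
    have := (h1 _ (sup' ξ hξ)).2
    rwa [← It_eq] at this
  have inc : ∀ y ∈ μ, ∀ x ∈ y, It h x ∈ It h y := fun y hy x hx =>
    (ho.mem (inμ x (ho.mem_trans hx hy))).mem_of_subset_of_mem (ho.mem (inμ y hy))
      (fun z a => mem_sUnion.2 ⟨_, mem_img.2 ⟨x, hx, rfl⟩, a⟩) (up y hy)
  have rm : ∀ x ∈ ρ, x ∈ μ := fun x hx => ho.mem_trans hx hρμ
  have mb : ∀ z, z ∈ (⋃₀ img (It h) ρ : V) ↔ ∃ x ∈ ρ, z ∈ It h x := fun z => by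
    simp only [mem_sUnion, mem_img]
    exact ⟨fun ⟨_, ⟨x, a, e⟩, b⟩ => ⟨x, a, e ▸ b⟩, fun ⟨x, a, b⟩ => ⟨_, ⟨x, a, rfl⟩, b⟩⟩
  have inβ : ∀ x ∈ ρ, It h x ∈ (⋃₀ img (It h) ρ : V) := fun x hx =>
    (mb _).2 ⟨_, hρ.succ hz hx, inc _ (rm _ (hρ.succ hz hx)) _ (mem_insert _ _)⟩
  refine ⟨_, sup' ρ hρμ, fun e => notMem_empty _ (e ▸ inβ _ hρ.zero), fun ν hν => ?_,
    fun x hx y hy => ?_⟩
  · refine big_of_incr hM hρ hν (f := graph (fun η => It h η) ρ)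
      (tm2 (K := ZF) (t := fun _ h ξ => graph (fun η => It h η) ξ) hz hh hρ.1.1)
      (fun x hx => by rw [ap_graph' hx]; exact ho.mem (inμ x (rm x hx)))
      (fun y hy x hx => by
        rw [ap_graph' hy, ap_graph' (hρ.ord.mem_trans hx hy)]; exact inc y (rm y hy) x hx)
      fun z => (mb z).trans (exists_congr fun x => and_congr_right fun hx => by rw [ap_graph' hx])
  · obtain ⟨ξ, a1, a2⟩ := (mb x).1 hx
    obtain ⟨η, b1, b2⟩ := (mb y).1 hy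
    have u := hρ.succ hz (union_mem hρ.ord a1 b1)
    have uo := hρ.ord.mem u
    have c1 : ξ ∈ insert (ξ ∪ η) (ξ ∪ η) := (hρ.ord.mem a1).mem_of_subset_of_mem uo
      (fun z a => mem_union.2 (.inl a)) (mem_insert _ _)
    have c2 : η ∈ insert (ξ ∪ η) (ξ ∪ η) := (hρ.ord.mem b1).mem_of_subset_of_mem uo
      (fun z a => mem_union.2 (.inr a)) (mem_insert _ _)
    refine ⟨⋃₀ img (It h) (insert (ξ ∪ η) (ξ ∪ η)), (mb _).2 ⟨_, u, up _ (rm _ u)⟩,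
      mem_sUnion.2 ⟨_, mem_img.2 ⟨ξ, c1, rfl⟩, a2⟩, mem_sUnion.2 ⟨_, mem_img.2 ⟨η, c2, rfl⟩, b2⟩, ?_⟩
    rw [← It_eq]; exact inβ _ u

theorem bdd_rel (hM : ZFC M) {μ a : V} (hμ : Regu M μ) (ha : a ∈ μ) {P : V → V → Prop}
    (hP : Cls2 M fun x m => m ∈ μ ∧ P x m) (h : ∀ x ∈ a, ∃ m ∈ μ, P x m)
    (mono : ∀ x m m', P x m → m ⊆ m' → P x m') : ∃ m ∈ μ, ∀ x ∈ a, P x m := by
  have hz : ZF M := hM.1.1
  have haM := hz.mem ha hμ.1.1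
  obtain ⟨k, hk, -, -, k2⟩ := Cls2.choice (W := M) hM.1 hP haM fun x hx => by
    obtain ⟨m, a1, a2⟩ := h x hx
    exact ⟨m, hz.mem a1 hμ.1.1, a1, a2⟩
  obtain ⟨m, hm, hm'⟩ := hμ.bdd ha (t := fun x => ap k x)
    (tm2 (K := ZF) (t := fun _ k τ => graph (fun x => ap k x) τ) hz hk haM) fun x hx => (k2 x hx).1
  exact ⟨m, hm, fun x hx => mono _ _ _ (k2 x hx).2 (hm' x hx)⟩

theorem closed_point (hM : ZFC M) {μ ρ ν k : V} (hμ : Regu M μ) (hρ : Regu M ρ) (hρμ : ρ ∈ μ)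
    (hν : ν ∈ ρ) (hk : k ∈ M)
    (h1 : ∀ x ∈ μ, ∀ i ∈ ν, ∀ ξ ∈ ν, ∀ y ∈ μ, ap k (pair (pair x i) (pair ξ y)) ∈ μ) :
    ∃ β ∈ μ, β ≠ ∅ ∧ (∀ ν ∈ ρ, Big M β ν) ∧ (∀ x ∈ β, ∃ b ∈ β, x ∈ b) ∧
      ∀ x ∈ β, ∀ i ∈ ν, ∀ ξ ∈ ν, ∀ y ∈ β, ap k (pair (pair x i) (pair ξ y)) ∈ β := by
  have hz : ZF M := hM.1.1
  have ho := hμ.ord
  have hνμ : ν ∈ μ := ho.mem_trans hν hρμ
  have μM := hμ.1.1
  have νM := hz.mem hνμ μM
  have key : ∀ b ∈ μ, ∃ m ∈ μ, ∀ x ∈ b, ∀ i ∈ ν, ∀ ξ ∈ ν, ∀ y ∈ b,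
      ap k (pair (pair x i) (pair ξ y)) ⊆ m := fun b hb => by
    have bM := hz.mem hb μM
    refine bdd_rel hM hμ hb (P := fun x m => ∀ i ∈ ν, ∀ ξ ∈ ν, ∀ y ∈ b,
        ap k (pair (pair x i) (pair ξ y)) ⊆ m)
      (cls4 (K := ZF) (S := fun _ μ ν b k z => snd z ∈ μ ∧ ∀ i ∈ ν, ∀ ξ ∈ ν, ∀ y ∈ b,
        ap k (pair (pair (fst z) i) (pair ξ y)) ⊆ snd z) hz μM νM bM hk) (fun x hx => ?_)
      fun x m m' a s i hi ξ hξ y hy z c => s (a i hi ξ hξ y hy c)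
    have xM := hz.mem hx bM
    refine bdd_rel hM hμ hνμ (P := fun i m => ∀ ξ ∈ ν, ∀ y ∈ b,
        ap k (pair (pair x i) (pair ξ y)) ⊆ m)
      (cls5 (K := ZF) (S := fun _ μ ν b k x z => snd z ∈ μ ∧ ∀ ξ ∈ ν, ∀ y ∈ b,
        ap k (pair (pair x (fst z)) (pair ξ y)) ⊆ snd z) hz μM νM bM hk xM) (fun i hi => ?_)
      fun x m m' a s ξ hξ y hy z c => s (a ξ hξ y hy c)
    have iM := hz.mem hi νM
    refine bdd_rel hM hμ hνμ (P := fun ξ m => ∀ y ∈ b, ap k (pair (pair x i) (pair ξ y)) ⊆ m)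
      (cls5 (K := ZF) (S := fun _ μ b k x i z => snd z ∈ μ ∧ ∀ y ∈ b,
        ap k (pair (pair x i) (pair (fst z) y)) ⊆ snd z) hz μM bM hk xM iM) (fun ξ hξ => ?_)
      fun x m m' a s y hy z c => s (a y hy c)
    exact hμ.bdd hb (t := fun y => ap k (pair (pair x i) (pair ξ y)))
      (tm5 (K := ZF) (t := fun _ b k x i ξ => graph (fun y => ap k (pair (pair x i) (pair ξ y))) b)
        hz bM hk xM iM (hz.mem hξ νM))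
      fun y hy => h1 x (ho.mem_trans hx hb) i hi ξ hξ y (ho.mem_trans hy hb)
  obtain ⟨h, hh, -, -, h2⟩ := Cls2.choice (W := M) hM.1
    (R := fun b m => m ∈ μ ∧ b ∈ m ∧ ∀ x ∈ b, ∀ i ∈ ν, ∀ ξ ∈ ν, ∀ y ∈ b,
      ap k (pair (pair x i) (pair ξ y)) ⊆ m)
    (cls3 (K := ZF) (S := fun _ μ ν k z => snd z ∈ μ ∧ fst z ∈ snd z ∧ ∀ x ∈ fst z, ∀ i ∈ ν,
      ∀ ξ ∈ ν, ∀ y ∈ fst z, ap k (pair (pair x i) (pair ξ y)) ⊆ snd z) hz μM νM hk) μM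
    fun b hb => by
      obtain ⟨m, a1, a2⟩ := key b hb
      have u := union_mem ho a1 (hμ.succ hz hb)
      exact ⟨_, hz.mem u μM, u, mem_union.2 (.inr (mem_insert _ _)),
        fun x hx i hi ξ hξ y hy z c => mem_union.2 (.inl (a2 x hx i hi ξ hξ y hy c))⟩
  obtain ⟨β, b1, b2, b3, b4⟩ := closure hM hμ hρ hρμ hh fun b hb => ⟨(h2 b hb).1, (h2 b hb).2.1⟩
  refine ⟨β, b1, b2, b3, fun x hx => (b4 x hx x hx).imp fun _ a => ⟨a.1, a.2.1⟩,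
    fun x hx i hi ξ hξ y hy => ?_⟩
  obtain ⟨b, c1, c2, c3, c4⟩ := b4 x hx y hy
  exact (ho.mem (h1 x (ho.mem_trans hx b1) i hi ξ hξ y (ho.mem_trans hy b1))).mem_of_subset_of_mem
    (ho.mem b1) ((h2 b (ho.mem_trans c1 b1)).2.2 x c2 i hi ξ hξ y c3) c4

end Pool.Agent.FS.IndexedSquare
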