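import Pool.Agent.FS.IndexedSquare.P

/-! The recursion guided by the colouring, and the density argument. -/

namespace Pool.Agent.FS.IndexedSquare

open ZFSet Pool.Agent.Lib.MP_329f2d_lc Pool.Agent.Lib.MP_a2bc17_lc

set_option synthInstance.maxSize 100000

/-- Starting points below `β` of blocks that miss `{γ : c(γ,β) ≤ j}`. -/
noncomputable def Ms (G c β j R : V) : V :=
  ZFSet.sep (fun m => tp (ap G (pair m R)) ∈ β ∧
    ∀ γ ∈ snd (ap G (pair m R)), m ⊆ snd γ → ¬ ColLe c (snd γ) β j) β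

/-- The least element. -/
noncomputable def lm (X : V) : V := ⋃₀ ZFSet.sep (fun m => ∀ m' ∈ X, m ⊆ m') X

/-- The step function guided by `β` from level `i` on. -/
noncomputable def GG (G c D β i : V) : V :=
  graph (fun z => ap G (pair (lm (Ms G c β (i ∪ fst z) (snd z))) (snd z))) D

/-- The points at which the recursion is stuck at `R`. -/
noncomputable def Ws (G c μ j R : V) : V :=
  ZFSet.sep (fun β => β ≠ ∅ ∧ (∀ m ∈ β, tp (ap G (pair m R)) ∈ β) ∧ Ms G c β j R = ∅) μ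

section
variable {K : Set V → Prop} [Cl K] {Γ : Type} [Countable Γ]
  (r s t u w : Set V → (Γ → V) → V) [Tm K r] [Tm K s] [Tm K t] [Tm K u] [Tm K w]
instance tm_Ms : Tm K fun W v => Ms (r W v) (s W v) (t W v) (u W v) (w W v) := by
  unfold Ms; infer_instance
instance tm_lm : Tm K fun W v => lm (r W v) := by unfold lm; infer_instance
instance tm_GG : Tm K fun W v => GG (r W v) (s W v) (t W v) (u W v) (w W v) := by
  unfold GG; infer_instance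
instance tm_Ws : Tm K fun W v => Ws (r W v) (s W v) (t W v) (u W v) (w W v) := by
  unfold Ws; infer_instance
end

theorem lm_eq {X m : V} (h1 : m ∈ X) (h2 : ∀ m' ∈ X, m ⊆ m') : lm X = m := by
  ext z
  simp only [lm, mem_sUnion, mem_sep]
  exact ⟨fun ⟨y, a, b⟩ => a.2 m h1 b, fun a => ⟨m, ⟨h1, h2⟩, a⟩⟩

theorem lm_spec {X β : V} (hβ : IsOrdinal β) (hX : ∀ m ∈ X, m ∈ β) (h : X ≠ ∅) :
    lm X ∈ X ∧ ∀ m ∈ X, lm X ⊆ m := by
  obtain ⟨m, -, a1, a2⟩ := exists_least hβ (P := fun m => m ∈ X) (by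
    by_contra hc
    exact h ((eq_empty X).2 fun y hy => hc ⟨y, hX y hy, hy⟩))
  have := lm_eq a1 fun m' a => a2 m' (hX m' a) a
  rw [this]; exact ⟨a1, fun m' a => a2 m' (hX m' a) a⟩

theorem lm_empty : lm ∅ = ∅ := by
  ext z; simp [lm]

theorem ap_empty (x : V) : ap ∅ x = ∅ := by
  ext z; simp [ap]

theorem mem_Ms {G c β j R m : V} : m ∈ Ms G c β j R ↔ m ∈ β ∧ tp (ap G (pair m R)) ∈ β ∧
    ∀ γ ∈ snd (ap G (pair m R)), m ⊆ snd γ → ¬ ColLe c (snd γ) β j := mem_sep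

variable {N : Set V} {μ θ Q : V}

theorem step (hN : ZFC N) (hμ : Regu N μ) (hθ : Regu N θ) (hQ : IsP N μ θ Q) {F p : V}
    (hF : F ∈ N) (hm : ∀ r r' x y, In3 F r x y → Leq N μ θ r' r → In3 F r' x y) (hp : p ∈ N)
    (ht : ∀ q, Leq N μ θ q p → ∀ x ∈ μ, ∃ r, Leq N μ θ r q ∧ ∃ y ∈ μ, In3 F r x y) :
    ∃ G ∈ N, ∀ m ∈ θ, ∀ R, Cnd N μ θ R → Leq N μ θ (ap G (pair m R)) R ∧ (Leq N μ θ R p →
      m ∈ tp (ap G (pair m R)) ∧ (∀ γ ∈ snd (ap G (pair m R)), fst γ ∈ fst R ∨ m ⊆ snd γ) ∧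
      ∃ z ∈ snd (ap G (pair m R)), fst R ⊆ fst z ∧ ∃ y ∈ fst (ap G (pair m R)),
        In3 F (ap G (pair m R)) (fst z) y) := by
  have hz : ZF N := hN.1.1
  have ho := hμ.ord
  have θo := hθ.ord
  refine step_fun' hN hQ hθ.1.1
    (R := fun m R w => Leq N μ θ w R ∧ (Leq N μ θ R p → m ∈ tp w ∧
      (∀ γ ∈ snd w, fst γ ∈ fst R ∨ m ⊆ snd γ) ∧
      ∃ z ∈ snd w, fst R ⊆ fst z ∧ ∃ y ∈ fst w, In3 F w (fst z) y))
    (cls4 (K := ZF) (S := fun W μ θ p F z => Cnd W μ θ (snd (fst z)) →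
      Leq W μ θ (snd z) (snd (fst z)) ∧ (Leq W μ θ (snd (fst z)) p → fst (fst z) ∈ tp (snd z) ∧
        (∀ γ ∈ snd (snd z), fst γ ∈ fst (snd (fst z)) ∨ fst (fst z) ⊆ snd γ) ∧
        ∃ x ∈ snd (snd z), fst (snd (fst z)) ⊆ fst x ∧
          ∃ y ∈ fst (snd z), In3 F (snd z) (fst x) y))
      hz hμ.1.1 hθ.1.1 hp hF) fun m hm' q hq => ?_
  by_cases h3 : Leq N μ θ q p
  swap
  · exact ⟨q, hq.mem, hq.refl, fun a => absurd a h3⟩
  have u := union_mem θo hq.tp hm'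
  set a := tp q ∪ m with had
  have old : ∀ γ ∈ snd q, snd γ ∈ a := fun γ b => mem_union.2 (.inl (snd_mem_tp b))
  have c1 : Leq N μ θ (pair (insert (fst q) (fst q)) (insert (pair (fst q) a) (snd q))) q := by
    refine ⟨⟨by simpa using hμ.succ hz hq.1, fun γ hγ => ?_, by simp,
      tm2 (K := ZF) (t := fun _ a q =>
        pair (insert (fst q) (fst q)) (insert (pair (fst q) a) (snd q)))
        hz (hz.mem u hθ.1.1) hq.mem, fun γ hγ => ?_,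
      tp_mem θo (hθ.succ hz u) fun γ hγ => ?_, fun γ hγ γ' hγ' b => ?_⟩, hq, fun γ hγ => ?_,
      fun γ hγ => ?_, fun γ hγ b => ?_⟩
    · rw [snd_pair, mem_insert_iff] at hγ
      rw [fst_pair, mem_insert_iff]
      exact hγ.imp (fun e => by rw [e, fst_pair]) (hq.2.1 γ)
    · rw [snd_pair, mem_insert_iff] at hγ
      rcases hγ with rfl | hγ
      exacts [pair_mem_prod.2 ⟨hq.1, u⟩, hq.2.2.2.2.1 hγ]
    · rw [snd_pair, mem_insert_iff] at hγ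
      rw [mem_insert_iff]
      exact hγ.imp (fun e => by rw [e, snd_pair]) (old γ)
    · rw [snd_pair, mem_insert_iff] at hγ hγ'
      rcases hγ with rfl | hγ <;> rcases hγ' with rfl | hγ'
      · exact fun _ a => a
      · rw [fst_pair] at b
        exact absurd (b (hq.2.1 _ hγ')) (mem_irrefl _)
      · rw [snd_pair]
        exact (θo.mem u).subset_of_mem (old γ hγ)
      · exact hq.2.2.2.2.2.2 γ hγ γ' hγ' b
    · rw [fst_pair]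
      exact mem_insert_of_mem _ hγ
    · rw [snd_pair]
      exact mem_insert_of_mem _ hγ
    · rw [snd_pair, mem_insert_iff] at hγ
      exact hγ.resolve_left fun e => by
        rw [e, fst_pair] at b
        exact mem_irrefl _ b
  obtain ⟨r, a1, y, hy, a2⟩ := ht _ (c1.trans h3) _ hq.1
  obtain ⟨w, a3, a4⟩ := pad' hz hμ θo (hμ.succ hz hy) a1.1
  have a5 := a3.trans a1
  have nw : pair (fst q) a ∈ snd w := a5.snd_sub (by rw [snd_pair]; exact mem_insert _ _)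
  have aw : a ∈ tp w := by simpa using snd_mem_tp nw
  have ma : m ⊆ a := fun z b => mem_union.2 (.inr b)
  refine ⟨w, a3.1.mem, a5.trans c1, fun _ => ⟨(θo.mem hm').mem_of_subset_of_mem (θo.mem a3.1.tp)
    ma aw, fun γ hγ => ?_, _, nw, by rw [fst_pair], y, a4 (mem_insert _ _),
    by rw [fst_pair]; exact hm _ _ _ _ a2 a3⟩⟩
  by_cases hg : fst γ ∈ insert (fst q) (fst q)
  · have := a5.2.2.2.2 γ hγ (by rwa [fst_pair])
    rw [snd_pair, mem_insert_iff] at this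
    rcases this with e | e
    · exact .inr (by rw [e, snd_pair]; exact ma)
    · exact .inl (hq.2.1 _ e)
  · have b1 := (((ho.mem a3.1.1).mem (a3.1.2.1 _ hγ)).notMem_iff_subset
      (ho.mem (hμ.succ hz hq.1))).1 hg (mem_insert _ _)
    have b2 := a3.1.2.2.2.2.2.2 _ nw γ hγ (by
      rw [fst_pair]; exact ((ho.mem a3.1.1).mem (a3.1.2.1 _ hγ)).subset_of_mem b1)
    rw [snd_pair] at b2
    exact .inr fun z b => b2 (ma b)

/-- The least point below `δ` of colour at most `j` with `s ι` but not with `s ι'`. -/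
noncomputable def ds (c j s δ ι ι' : V) : V :=
  lm (ZFSet.sep (fun z => ColLe c z (ap s ι) j ∧ ¬ ColLe c z (ap s ι') j) δ)

section
variable {K : Set V → Prop} [Cl K] {Γ : Type} [Countable Γ]
  (r s t u w x : Set V → (Γ → V) → V) [Tm K r] [Tm K s] [Tm K t] [Tm K u] [Tm K w] [Tm K x]
instance tm_ds : Tm K fun W v => ds (r W v) (s W v) (t W v) (u W v) (w W v) (x W v) := by
  unfold ds; infer_instance
end

theorem kurepa (hN : ZFC N) (hμ : Regu N μ) (hθ : Regu N θ) (hμθ : μ ∈ θ) {W c ν j A : V}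
    (hW : W ∈ N) (hc : c ∈ N) (hA : A ∈ N) (hj : j ∈ ν) (hνμ : ν ∈ μ) (sa : Subadd c θ ν)
    (su : StrUnb N c θ ν) (hWθ : ∀ β ∈ W, β ∈ θ) (hu : ∀ n ∈ θ, ∃ β ∈ W, n ∈ β)
    (hA1 : ∀ m ∈ θ, fst (ap A m) ∈ μ ∧ tp (ap A m) ∈ θ)
    (st : ∀ β ∈ W, ∀ m ∈ β, tp (ap A m) ∈ β ∧ ∃ ι ∈ fst (ap A m), m ⊆ ap (snd (ap A m)) ι ∧
      ap (snd (ap A m)) ι ∈ tp (ap A m) ∧ ColLe c (ap (snd (ap A m)) ι) β j) : False := by
  have hz : ZF N := hN.1.1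
  have ho := hθ.ord
  have θN := hθ.1.1
  have νN := hz.mem hνμ hμ.1.1
  have jN := hz.mem hj νN
  have split : ∀ x ∈ θ, ∃ z ∈ θ, (∀ β ∈ W, ColLe c x β j → β ∈ z) ∨
      ((∀ n ∈ θ, ∃ β ∈ W, n ⊆ β ∧ ColLe c x β j ∧ ColLe c z β j) ∧
        ∀ n ∈ θ, ∃ β ∈ W, n ⊆ β ∧ ColLe c x β j ∧ ¬ ColLe c z β j) := fun x hx => by
    by_contra hcon
    have xN := hz.mem hx θN
    have un : ∀ n ∈ θ, ∃ β ∈ W, n ⊆ β ∧ ColLe c x β j := fun n hn => by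
      by_contra h
      exact hcon ⟨n, hn, .inl fun β a b => by
        by_contra e
        exact h ⟨β, a, ((ho.mem (hWθ β a)).notMem_iff_subset (ho.mem hn)).1 e, b⟩⟩
    have ub : Unb (ZFSet.sep (fun z => ∃ n ∈ θ, ∀ β ∈ W, n ⊆ β → ColLe c x β j → ColLe c z β j) θ)
        θ := fun m hm => by
      by_contra hb
      have m' := hθ.succ hz hm
      have sN := tm2 (K := ZF) (t := fun _ A m => snd (ap A (insert m m))) hz hA (hz.mem hm θN)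
      have st' := fun β a b => st β a (insert m m) b
      generalize snd (ap A (insert m m)) = s at sN st'
      obtain ⟨n, n1, n2⟩ := bdd_rel hN hθ (ho.mem_trans (hA1 _ m').1 hμθ)
        (P := fun ι n => ∀ β ∈ ZFSet.sep (fun β => ColLe c x β j) W, n ⊆ β →
          ap s ι ∈ θ → m ∈ ap s ι → ¬ ColLe c (ap s ι) β j)
        (cls6 (K := ZF) (S := fun _ θ X c j s m z => snd z ∈ θ ∧ ∀ β ∈ X, snd z ⊆ β →
          ap s (fst z) ∈ θ → m ∈ ap s (fst z) → ¬ ColLe c (ap s (fst z)) β j) hz θN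
          (tm4 (K := ZF) (t := fun _ W c x j => ZFSet.sep (fun β => ColLe c x β j) W)
            hz hW hc xN jN) hc jN sN (hz.mem hm θN))
        (fun ι _ => by
          by_contra h1
          have vθ : ap s ι ∈ θ := by
            by_contra e
            exact h1 ⟨∅, hθ.zero, fun _ _ _ a => absurd a e⟩
          have mv : m ∈ ap s ι := by
            by_contra e
            exact h1 ⟨∅, hθ.zero, fun _ _ _ _ a => absurd a e⟩
          refine hcon ⟨_, vθ, .inr ⟨fun n hn => ?_, fun n hn => ?_⟩⟩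
          · by_contra e
            exact h1 ⟨n, hn, fun β a1 a2 _ _ a4 =>
              e ⟨β, (mem_sep.1 a1).1, a2, (mem_sep.1 a1).2, a4⟩⟩
          · by_contra e
            exact hb ⟨_, mem_sep.2 ⟨vθ, n, hn, fun β a1 a2 a3 => by
              by_contra a4
              exact e ⟨β, a1, a2, a3, a4⟩⟩, vθ, mv⟩)
        fun ι n n' a h β b1 b2 => a β b1 fun w c => b2 (h c)
      obtain ⟨β, g1, g2, g3⟩ := un _ (union_mem ho n1 (hθ.succ hz m'))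
      obtain ⟨-, ι, a1, a2, a3, a4⟩ := st' β g1 (g2 (mem_union.2 (.inr (mem_insert _ _))))
      exact n2 ι a1 β (mem_sep.2 ⟨g1, g3⟩) (fun w a => g2 (mem_union.2 (.inl a)))
        (ho.mem_trans a3 (hA1 _ m').2) (a2 (mem_insert _ _)) a4
    obtain ⟨β, b1, α, b2, b3, b4⟩ := su _ ((cls5 (K := ZF) (S := fun _ θ W c x j z =>
        ∃ n ∈ θ, ∀ β ∈ W, n ⊆ β → ColLe c x β j → ColLe c z β j) hz θN hW hc xN jN).sep hz θN)
      (fun z a => (mem_sep.1 a).1) ub j hj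
    obtain ⟨c1, n1, c2, c3⟩ := mem_sep.1 b1
    obtain ⟨-, n2, d2, d3⟩ := mem_sep.1 b2
    obtain ⟨γ, g1, g2, g3⟩ := un _ (union_mem ho (union_mem ho c2 d2) (hθ.succ hz c1))
    exact b4 ((sa γ (hWθ γ g1) β (g2 (mem_union.2 (.inr (mem_insert _ _)))) α b3 j hj
      (c3 γ g1 (fun w a => g2 (mem_union.2 (.inl (mem_union.2 (.inl a))))) g3)).2
      (d3 γ g1 (fun w a => g2 (mem_union.2 (.inl (mem_union.2 (.inr a))))) g3))
  obtain ⟨zf, zN, -, -, z2⟩ := Cls2.choice (W := N) hN.1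
    (R := fun x z => z ∈ θ ∧ ((∀ β ∈ W, ColLe c x β j → β ∈ z) ∨
      ((∀ n ∈ θ, ∃ β ∈ W, n ⊆ β ∧ ColLe c x β j ∧ ColLe c z β j) ∧
        ∀ n ∈ θ, ∃ β ∈ W, n ⊆ β ∧ ColLe c x β j ∧ ¬ ColLe c z β j)))
    (cls4 (K := ZF) (S := fun _ θ W c j w => snd w ∈ θ ∧
      ((∀ β ∈ W, ColLe c (fst w) β j → β ∈ snd w) ∨
      ((∀ n ∈ θ, ∃ β ∈ W, n ⊆ β ∧ ColLe c (fst w) β j ∧ ColLe c (snd w) β j) ∧
        ∀ n ∈ θ, ∃ β ∈ W, n ⊆ β ∧ ColLe c (fst w) β j ∧ ¬ ColLe c (snd w) β j))) hz θN hW hc jN)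
    θN fun x hx => (split x hx).imp fun z a => ⟨hz.mem a.1 θN, a⟩
  have hk := tm4 (K := ZF) (t := fun _ zf A θ ν => graph (fun w =>
    ap zf (fst (fst w)) ∪ tp (ap A (snd (snd w)))) (prod (prod θ ν) (prod ν θ))) hz zN hA θN νN
  set k := graph _ (prod (prod θ ν) (prod ν θ)) with hkd
  have kap : ∀ x ∈ θ, ∀ i ∈ ν, ∀ ξ ∈ ν, ∀ y ∈ θ, ap k (pair (pair x i) (pair ξ y)) =
      ap zf x ∪ tp (ap A y) := fun x hx i hi ξ hξ y hy => by
    rw [hkd, ap_graph' (pair_mem_prod.2 ⟨pair_mem_prod.2 ⟨hx, hi⟩, pair_mem_prod.2 ⟨hξ, hy⟩⟩)]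
    simp only [fst_pair, snd_pair]
  obtain ⟨δ, hδ, δ0, big, -, clo⟩ := closed_point hN hθ hμ hμθ hνμ hk
    fun x hx i hi ξ hξ y hy => by
      rw [kap x hx i hi ξ hξ y hy]
      exact union_mem ho (z2 x hx).1 (hA1 y hy).2
  have δo := ho.mem hδ
  have δN := hz.mem hδ θN
  have cz : ∀ x ∈ δ, ap zf x ∈ δ ∧ tp (ap A x) ∈ δ := fun x hx => by
    have xθ := ho.mem_trans hx hδ
    have a := clo x hx j hj j hj x hx
    rw [kap x xθ j hj j hj x xθ] at a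
    exact ⟨(ho.mem (z2 x xθ).1).mem_of_subset_of_mem δo (fun w b => mem_union.2 (.inl b)) a,
      (ho.mem (hA1 x xθ).2).mem_of_subset_of_mem δo (fun w b => mem_union.2 (.inr b)) a⟩
  have aμ := (hA1 δ hδ).1
  have aN := hz.mem aμ hμ.1.1
  have sN := tm2 (K := ZF) (t := fun _ A m => snd (ap A m)) hz hA δN
  have st' := fun β a b => st β a δ b
  generalize snd (ap A δ) = s at sN st'
  generalize fst (ap A δ) = a at aμ aN st'
  have tδ : ∀ ι ι', ds c j s δ ι ι' ∈ δ := fun ι ι' => by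
    by_cases e : ZFSet.sep (fun z => ColLe c z (ap s ι) j ∧ ¬ ColLe c z (ap s ι') j) δ = ∅
    · rw [ds, e, lm_empty]; exact empty_mem_of_ord δo δ0
    · exact (mem_sep.1 (lm_spec δo (fun m a => (mem_sep.1 a).1) e).1).1
  obtain ⟨m0, m1, m2⟩ := big a aμ
    (fun ι => ⋃₀ img (fun ι' => insert (ds c j s δ ι ι') (ds c j s δ ι ι')) a) a (mem_insert _ _)
    (tm5 (K := ZF) (t := fun _ c j s δ a => graph (fun ι =>
      ⋃₀ img (fun ι' => insert (ds c j s δ ι ι') (ds c j s δ ι ι')) a) a) hz hc jN sN δN aN)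
    fun ι hι => by
      obtain ⟨b, b1, b2⟩ := big a aμ (fun ι' => ds c j s δ ι ι') a (mem_insert _ _)
        (tm6 (K := ZF) (t := fun _ c j s δ a ι => graph (fun ι' => ds c j s δ ι ι') a)
          hz hc jN sN δN aN (hz.mem hι aN)) fun ι' _ => tδ ι ι'
      refine sUnion_mem δo b1 fun x hx => ?_
      obtain ⟨ι', a1, rfl⟩ := mem_img.1 hx
      refine ⟨succ_mem_of_ord δo b1 (b2 ι' a1), fun w a => ?_⟩
      rcases mem_insert_iff.1 a with rfl | a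
      exacts [b2 ι' a1, (δo.mem b1).mem_trans a (b2 ι' a1)]
  obtain ⟨β0, e1, e2⟩ := hu δ hδ
  have β0o := ho.mem (hWθ _ e1)
  obtain ⟨-, ι0, -, x1, x2, x3⟩ := st β0 e1 m0 (β0o.mem_trans m1 e2)
  generalize ap (snd (ap A m0)) ι0 = x at x1 x2 x3
  have xδ := δo.mem_trans x2 (cz m0 m1).2
  have zδ := (cz x xδ).1
  rcases (z2 x (ho.mem_trans xδ hδ)).2 with h | ⟨h1, h2⟩
  · exact mem_asymm e2 (δo.mem_trans (h β0 e1 x3) zδ)
  obtain ⟨β1, p1, p2, p3, p4⟩ := h1 _ (hθ.succ hz hδ)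
  obtain ⟨β2, q1, q2, q3, q4⟩ := h2 _ (hθ.succ hz hδ)
  have p5 := p2 (mem_insert _ _)
  have q5 := q2 (mem_insert _ _)
  have o1 := ho.mem (hWθ _ p1)
  have o2 := ho.mem (hWθ _ q1)
  obtain ⟨r0, ι1, r1, r2, r3, r4⟩ := st' β1 p1 p5
  obtain ⟨t0, ι2, t1, t2, t3, t4⟩ := st' β2 q1 q5
  have v1 := fun u (hu : u ∈ δ) => sa β1 (hWθ _ p1) _ (o1.mem_trans r3 r0) u (r2 hu) j hj r4
  have v2 := fun u (hu : u ∈ δ) => sa β2 (hWθ _ q1) _ (o2.mem_trans t3 t0) u (t2 hu) j hj t4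
  have sp : ds c j s δ ι1 ι2 ∈ _ := (lm_spec δo (fun m a => (mem_sep.1 a).1) fun e =>
    notMem_empty (ap zf x) (e ▸ mem_sep.2 ⟨zδ, (v1 _ zδ).2 p4, fun a => q4 ((v2 _ zδ).1 a)⟩)).1
  obtain ⟨u1, u2, u3⟩ := mem_sep.1 sp
  have ux : ds c j s δ ι1 ι2 ∈ x := by
    refine x1 ((δo.mem m1).mem_trans ?_ (m2 ι1 r1))
    exact mem_sUnion.2 ⟨insert (ds c j s δ ι1 ι2) (ds c j s δ ι1 ι2), mem_img.2 ⟨ι2, t1, rfl⟩,
      mem_insert _ _⟩
  exact u3 ((v2 _ u1).2 ((sa β2 (hWθ _ q1) x (o2.mem_trans xδ q5) _ ux j hj q3).1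
    ((sa β1 (hWθ _ p1) x (o1.mem_trans xδ p5) _ ux j hj p3).2 ((v1 _ u1).1 u2))))

theorem Ws_bdd (hN : ZFC N) (hμ : Regu N μ) (hθ : Regu N θ) (hμθ : μ ⊆ θ) {G c ν j R : V}
    (hG : G ∈ N) (hc : c ∈ N) (hj : j ∈ ν) (hνμ : ν ∈ μ) (hR : R ∈ N) (sa : Subadd c θ ν)
    (cl : θ = μ → ClosedCol c θ ν) (su : StrUnb N c θ ν)
    (h : ∀ m ∈ θ, Cnd N μ θ (ap G (pair m R)) ∧ m ∈ tp (ap G (pair m R))) :
    (⋃₀ Ws G c θ j R : V) ∈ θ := by
  have hz : ZF N := hN.1.1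
  have ho := hθ.ord
  have hjN := hz.mem hj (hz.mem hνμ hμ.1.1)
  have WN := tm5 (K := ZF) (t := fun _ G c μ j R => Ws G c μ j R) hz hG hc hθ.1.1 hjN hR
  have st : ∀ β ∈ Ws G c θ j R, ∀ m ∈ β, tp (ap G (pair m R)) ∈ β ∧
      ∃ γ ∈ snd (ap G (pair m R)), m ⊆ snd γ ∧ ColLe c (snd γ) β j := fun β hβ m hm => by
    obtain ⟨-, -, c1, c2⟩ := mem_sep.1 hβ
    refine ⟨c1 m hm, ?_⟩
    by_contra hcon
    exact notMem_empty m (c2 ▸ mem_Ms.2 ⟨hm, c1 m hm, fun γ a1 a2 a3 => hcon ⟨γ, a1, a2, a3⟩⟩)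
  by_cases hu : Unb (Ws G c θ j R) θ
  · rcases (hμ.ord.subset_iff_eq_or_mem ho).1 hμθ with e | e
    · obtain ⟨β', b1, β, b2, b3, b4⟩ := su _ WN (fun z a => (mem_sep.1 a).1) hu j hj
      have c1 := (mem_sep.1 b1).1
      obtain ⟨d1, d2, d3, -⟩ := mem_sep.1 b2
      refine (b4 (cl e.symm β' c1 j hj β b3 d2 fun α hα => ?_)).elim
      have e1 := d3 α hα
      obtain ⟨-, γ, a1, a2, a3⟩ := st β' b1 _ ((ho.mem c1).mem_trans e1 b3)
      exact ⟨_, (ho.mem d1).mem_trans (snd_mem_tp a1) (d3 _ e1),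
        a2 (h α (ho.mem_trans hα d1)).2, a3⟩
    · refine (kurepa hN hμ hθ e WN hc (A := graph (fun m => ap G (pair m R)) θ)
        (tm3 (K := ZF) (t := fun _ G R θ => graph (fun m => ap G (pair m R)) θ) hz hG hR hθ.1.1)
        hj hνμ sa su (fun z a => (mem_sep.1 a).1)
        (fun n hn => (hu n hn).imp fun _ a => ⟨a.1, a.2.2⟩) (fun m hm => ?_)
        fun β hβ m hm => ?_).elim
      · rw [ap_graph' hm]
        exact ⟨(h m hm).1.1, (h m hm).1.tp⟩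
      · have mθ := ho.mem_trans hm (mem_sep.1 hβ).1
        rw [ap_graph' mθ]
        obtain ⟨a0, γ, a1, a2, a3⟩ := st β hβ m hm
        refine ⟨a0, fst γ, (h m mθ).1.2.1 γ a1, ?_⟩
        rw [(h m mθ).1.ap_eq a1]
        exact ⟨a2, snd_mem_tp a1, a3⟩
  · simp only [Unb, not_forall] at hu
    obtain ⟨α, hα, hu⟩ := hu
    refine sUnion_mem ho hα fun x hx => ⟨(mem_sep.1 hx).1, ?_⟩
    exact ((ho.mem hα).notMem_iff_subset (ho.mem (mem_sep.1 hx).1)).1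
      fun a => hu ⟨x, hx, (mem_sep.1 hx).1, a⟩

theorem dense (hN : ZFC N) (hμ : Regu N μ) (hθ : Regu N θ) (hμθ : μ ⊆ θ) (hQ : IsP N μ θ Q)
    {ν ρ κ c F p q : V}
    (hν : Regu N ν) (hρ : Regu N ρ) (hνρ : ν ∈ ρ) (hρμ : ρ ∈ μ) (hνκ : ν ∈ κ) (hc : c ∈ N)
    (cf : IsFunc (prod θ θ) ν c) (sa : Subadd c θ ν) (cl : θ = μ → ClosedCol c θ ν)
    (su : StrUnb N c θ ν) (hF : F ∈ N) (hm : ∀ r r' x y, In3 F r x y → Leq N μ θ r' r → In3 F r' x y) (hp : p ∈ N)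
    (ht : ∀ q, Leq N μ θ q p → ∀ x ∈ μ, ∃ r, Leq N μ θ r q ∧ ∃ y ∈ μ, In3 F r x y) (hq : Leq N μ θ q p) :
    ∃ r, Leq N μ θ r q ∧ fst r ≠ ∅ ∧ Unb (img fst (snd r)) (fst r) ∧ CofLt N (fst r) κ ∧
      (∀ j ∈ ν, ∃ a ∈ fst r, ∀ z ∈ snd r, a ∈ fst z → ¬ ColLe c (snd z) (tp r) j) ∧
      ∀ α ∈ fst r, ∃ α' ∈ fst r, ∃ y ∈ fst r, α ⊆ α' ∧ In3 F r α' y := by
  have hz : ZF N := hN.1.1
  have ho := hθ.ord
  have μo := hμ.ord
  have νo := hν.ord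
  have hνμ : ν ∈ μ := μo.mem_trans hνρ hρμ
  have μN := hθ.1.1
  have νN := hν.1.1
  have qN := hq.1.mem
  obtain ⟨G, hG, h2⟩ := step hN hμ hθ hQ hF hm hp ht
  have hD := tm2 (K := ZF) (t := fun _ σ Q => prod σ (⋃₀ ⋃₀ Q)) hz νN hQ.mem
  set D := prod ν (⋃₀ ⋃₀ Q) with hDd
  have gap : ∀ β i, ∀ ξ ∈ ν, ∀ R, Cnd N μ θ R → ap (GG G c D β i) (pair ξ R) =
      ap G (pair (lm (Ms G c β (i ∪ ξ) R)) R) := fun β i ξ hξ R hR => by
    rw [GG, ap_graph' (pair_mem_prod.2 ⟨hξ, left_mem_sUnion ((hQ.iff _ _).2 hR.refl)⟩)]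
    simp only [fst_pair, snd_pair]
  have lmμ : ∀ β ∈ θ, ∀ j R, lm (Ms G c β j R) ∈ θ := fun β hβ j R => by
    by_cases e : Ms G c β j R = ∅
    · rw [e, lm_empty]; exact hθ.zero
    · exact ho.mem_trans (mem_Ms.1 (lm_spec (ho.mem hβ) (fun m a => (mem_Ms.1 a).1) e).1).1 hβ
  have ch : ∀ β ∈ θ, ∀ i ∈ ν, ∀ ξ ∈ insert ν ν, Leq N μ θ (Bs (GG G c D β i) ∅ q ξ) q ∧
      ∀ η ∈ ξ, Leq N μ θ (Bs (GG G c D β i) ∅ q ξ) (PP (GG G c D β i) ∅ q η) := fun β hβ i hi ξ =>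
    chain' hz hμ hθ hμθ (tm5 (K := ZF) (t := fun _ G c D β i => GG G c D β i) hz hG hc hD
      (hz.mem hβ μN) (hz.mem hi νN)) hq.1 hνμ
      (fun ξ hξ R hR => by rw [gap β i ξ hξ R hR]; exact (h2 _ (lmμ β hβ _ _) R hR).1) ξ
  have pp : ∀ β ∈ θ, ∀ i ∈ ν, ∀ ξ ∈ ν, PP (GG G c D β i) ∅ q ξ =
      ap G (pair (lm (Ms G c β (i ∪ ξ) (Bs (GG G c D β i) ∅ q ξ))) (Bs (GG G c D β i) ∅ q ξ)) :=
    fun β hβ i hi ξ hξ => by
      rw [PP_eq, gap β i ξ hξ _ (ch β hβ i hi ξ (mem_insert_of_mem _ hξ)).1.1]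
  have hk := tm6 (K := ZF) (t := fun _ G c D μ ν q => graph (fun z =>
      tp (ap G (pair (snd (snd z)) (Bs (GG G c D (fst (fst z)) (snd (fst z))) ∅ q (fst (snd z))))) ∪
      ⋃₀ Ws G c μ (snd (fst z) ∪ fst (snd z))
        (Bs (GG G c D (fst (fst z)) (snd (fst z))) ∅ q (fst (snd z))))
      (prod (prod μ ν) (prod ν μ))) hz hG hc hD μN νN qN
  set k := graph _ (prod (prod θ ν) (prod ν θ)) with hkd
  have kap : ∀ x ∈ θ, ∀ i ∈ ν, ∀ ξ ∈ ν, ∀ y ∈ θ, ap k (pair (pair x i) (pair ξ y)) =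
      tp (ap G (pair y (Bs (GG G c D x i) ∅ q ξ))) ∪
        ⋃₀ Ws G c θ (i ∪ ξ) (Bs (GG G c D x i) ∅ q ξ) := fun x hx i hi ξ hξ y hy => by
    rw [hkd, ap_graph' (pair_mem_prod.2 ⟨pair_mem_prod.2 ⟨hx, hi⟩, pair_mem_prod.2 ⟨hξ, hy⟩⟩)]
    simp only [fst_pair, snd_pair]
  obtain ⟨β, hβ, β0, big, lim, clo⟩ := closed_point hN hθ hρ (hμθ hρμ) hνρ hk
    fun x hx i hi ξ hξ y hy => by
      have a := (ch x hx i hi ξ (mem_insert_of_mem _ hξ)).1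
      have u := union_mem νo hi hξ
      rw [kap x hx i hi ξ hξ y hy]
      exact union_mem ho (h2 y hy _ a.1).1.1.tp (Ws_bdd hN hμ hθ hμθ hG hc u hνμ a.1.mem sa cl su
        fun m hm' => ⟨(h2 m hm' _ a.1).1.1, ((h2 m hm' _ a.1).2 (a.trans hq)).1⟩)
  replace big := big ν hνρ
  have βo := ho.mem hβ
  have βN := hz.mem hβ μN
  obtain ⟨i, hi, hX⟩ := pigeon hN big βo βN νN βN hc
    (fun α hα => (lim α hα).imp fun _ a => ⟨a.1, a.1, a.2⟩)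
    fun z a => colLe_total cf (ho.mem_trans a hβ) hβ
  have GN := tm5 (K := ZF) (t := fun _ G c D β i => GG G c D β i) hz hG hc hD βN (hz.mem hi νN)
  have c0 := ch β hβ i hi
  have p0 := pp β hβ i hi
  have rq : ∀ ξ ∈ ν, Leq N μ θ (Bs (GG G c D β i) ∅ q ξ) q := fun ξ hξ =>
    (c0 ξ (mem_insert_of_mem _ hξ)).1
  have free : ∀ ξ, ξ ∈ ν → Ms G c β (i ∪ ξ) (Bs (GG G c D β i) ∅ q ξ) ≠ ∅ := fun ξ => by
    induction ξ using ZFSet.inductionOn with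
    | _ ξ ih =>
    intro hξ he
    have sp := fun η (hη : η ∈ ξ) => lm_spec βo (fun m a => (mem_Ms.1 a).1)
      (ih η hη (νo.mem_trans hη hξ))
    obtain ⟨b, b1, b2⟩ := big (fun η => tp (PP (GG G c D β i) ∅ q η)) ξ (mem_insert_of_mem _ hξ)
      (tm3 (K := ZF) (t := fun _ g q ξ => graph (fun η => tp (PP g ∅ q η)) ξ) hz GN qN
        (hz.mem hξ νN)) fun η hη => by
        rw [p0 η (νo.mem_trans hη hξ)]; exact (mem_Ms.1 (sp η hη).1).2.1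
    obtain ⟨x, x1, -, x2, x3⟩ := hX b b1
    have xμ := ho.mem_trans x1 hβ
    have xo := ho.mem xμ
    have coh : ∀ η, η ∈ ξ → PP (GG G c D x i) ∅ q η = PP (GG G c D β i) ∅ q η := fun η => by
      induction η using ZFSet.inductionOn with
      | _ η ih2 =>
      intro hη
      have ην := νo.mem_trans hη hξ
      have e : Bs (GG G c D x i) ∅ q η = Bs (GG G c D β i) ∅ q η := by
        rw [Bs, Bs, img_congr fun y hy => ih2 y hy ((νo.mem hξ).mem_trans hy hη)]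
      have u := union_mem νo hi ην
      have eqv : ∀ γ ∈ x, ColLe c γ x (i ∪ η) ↔ ColLe c γ β (i ∪ η) := fun γ a =>
        sa β hβ x x1 γ a _ u (x3.mono fun z a => mem_union.2 (.inl a))
      have s1 := mem_Ms.1 (sp η hη).1
      have s2 := b2 η hη
      rw [p0 η ην] at s2
      have s3 := xo.mem_trans s2 x2
      have s4 := ((h2 _ (lmμ β hβ (i ∪ η) (Bs (GG G c D β i) ∅ q η)) _ (rq η ην).1).2
        ((rq η ην).trans hq)).1
      rw [pp x xμ i hi η ην, p0 η ην, e, lm_eq (X := Ms G c x _ _)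
        (mem_Ms.2 ⟨xo.mem_trans s4 s3, s3, fun γ a1 a2 a3 =>
          s1.2.2 γ a1 a2 ((eqv _ (xo.mem_trans (snd_mem_tp a1) s3)).1 a3)⟩)
        fun m' a => (sp η hη).2 m' (by
          have a := mem_Ms.1 a
          exact mem_Ms.2 ⟨βo.mem_trans a.1 x1, βo.mem_trans a.2.1 x1, fun γ a1 a2 a3 =>
            a.2.2 γ a1 a2 ((eqv _ (xo.mem_trans (snd_mem_tp a1) a.2.1)).2 a3)⟩)]
    have e : Bs (GG G c D x i) ∅ q ξ = Bs (GG G c D β i) ∅ q ξ := by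
      rw [Bs, Bs, img_congr coh]
    have cl2 := fun y (hy : y ∈ β) => clo x x1 i hi ξ hξ y hy
    have w1 : β ∈ Ws G c θ (i ∪ ξ) (Bs (GG G c D β i) ∅ q ξ) :=
      mem_sep.2 ⟨hβ, β0, fun m a => by
        have a1 := cl2 m a
        rw [kap x xμ i hi ξ hξ m (ho.mem_trans a hβ), e] at a1
        exact (ho.mem (h2 m (ho.mem_trans a hβ) _ (rq ξ hξ).1).1.1.tp).mem_of_subset_of_mem βo
          (fun z b => mem_union.2 (.inl b)) a1, he⟩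
    have a1 := cl2 x x1
    rw [kap x xμ i hi ξ hξ x xμ, e] at a1
    exact mem_irrefl _ (mem_union.2 (.inr (mem_sUnion.2 ⟨β, w1, a1⟩)))
  have ms := fun ξ (hξ : ξ ∈ ν) =>
    mem_Ms.1 (lm_spec βo (fun m a => (mem_Ms.1 a).1) (free ξ hξ)).1
  have st := fun ξ (hξ : ξ ∈ ν) =>
    h2 _ (lmμ β hβ (i ∪ ξ) (Bs (GG G c D β i) ∅ q ξ)) _ (rq ξ hξ).1
  have top := c0 ν (mem_insert _ _)
  have mf : ∀ ξ γ, γ ∈ fst (Bs (GG G c D β i) ∅ q ξ) ↔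
      γ ∈ fst q ∨ ∃ η ∈ ξ, γ ∈ fst (PP (GG G c D β i) ∅ q η) := fun ξ γ => by
    rw [Bs, mem_fst_lb, ap_empty]
    simp only [notMem_empty, false_or, mem_insert_iff, mem_img]
    constructor
    · rintro ⟨r, rfl | ⟨η, a, rfl⟩, b⟩
      exacts [.inl b, .inr ⟨η, a, b⟩]
    · rintro (b | ⟨η, a, b⟩)
      exacts [⟨q, .inl rfl, b⟩, ⟨_, .inr ⟨η, a, rfl⟩, b⟩]
  generalize hT : PP (GG G c D β i) ∅ q = T at *
  have RN : graph (fun ξ => fst (Bs (GG G c D β i) ∅ q ξ)) ν ∈ N :=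
    tm3 (K := ZF) (t := fun _ g q ν => graph (fun η => fst (Bs g ∅ q η)) ν) hz GN qN νN
  generalize hR : Bs (GG G c D β i) ∅ q = R at *
  have δo := μo.mem top.1.1.1
  have tR : ∀ ξ ∈ ν, Leq N μ θ (T ξ) (R ξ) := fun ξ hξ => by rw [p0 ξ hξ]; exact (st ξ hξ).1
  have blk : ∀ ξ ∈ ν, ∃ z ∈ snd (R ν), fst z ∈ fst (R ν) ∧ fst (R ξ) ⊆ fst z ∧
      ∃ y ∈ fst (R ν), In3 F (R ν) (fst z) y := fun ξ hξ => by
    obtain ⟨-, -, z, a1, a2, y, a3, a4⟩ := (st ξ hξ).2 ((rq ξ hξ).trans hq)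
    rw [← p0 ξ hξ] at a1 a3 a4
    have a5 := (top.2 ξ hξ).snd_sub a1
    exact ⟨z, a5, top.1.1.2.1 _ a5, a2, y, (top.2 ξ hξ).2.2.1 a3, hm _ _ _ _ a4 (top.2 ξ hξ)⟩
  have Rδ : ∀ ξ ∈ ν, fst (R ξ) ∈ fst (R ν) := fun ξ hξ => by
    obtain ⟨z, -, a1, a2, -⟩ := blk ξ hξ
    exact (μo.mem (rq ξ hξ).1.1).mem_of_subset_of_mem δo a2 a1
  have cov : ∀ α ∈ fst (R ν), ∃ ξ ∈ ν, α ∈ fst (R ξ) := fun α hα => by
    rcases (mf ν α).1 hα with a | ⟨η, a, b⟩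
    · exact ⟨∅, hν.zero, (rq _ hν.zero).2.2.1 a⟩
    · exact ⟨_, hν.succ hz a, (mf _ α).2 (.inr ⟨η, mem_insert _ _, b⟩)⟩
  have cov2 : ∀ α ∈ fst (R ν), ∃ ξ ∈ ν, α ∈ fst (T ξ) := fun α hα =>
    (cov α hα).imp fun ξ a => ⟨a.1, (tR ξ a.1).2.2.1 a.2⟩
  have δβ : tp (R ν) ⊆ β := fun α hα => by
    obtain ⟨z, z1, z2⟩ := mem_tp.1 hα
    obtain ⟨ξ, a1, a2⟩ := cov2 _ (top.1.1.2.1 _ z1)
    have a3 : α ∈ tp (T ξ) := mem_tp.2 ⟨z, (top.2 ξ a1).2.2.2.2 z z1 a2, z2⟩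
    rw [p0 ξ a1] at a3
    exact βo.mem_trans a3 (ms ξ a1).2.1
  refine ⟨R ν, top.1, fun e => notMem_empty _ (e ▸ Rδ _ hν.zero), fun α hα => ?_,
    ⟨ν, hνκ, _, RN, isFunc_graph Rδ, fun α hα => ?_⟩, fun j hj => ?_, fun α hα => ?_⟩
  · obtain ⟨ξ, a1, a2⟩ := cov α hα
    obtain ⟨z, b1, b2, b3, -⟩ := blk ξ a1
    exact ⟨fst z, mem_img.2 ⟨z, b1, rfl⟩, b2, b3 a2⟩
  · obtain ⟨ξ, a1, a2⟩ := cov α hα
    exact ⟨ξ, _, pair_mem_graph.2 ⟨a1, rfl⟩, (μo.mem (rq ξ a1).1.1).subset_of_mem a2⟩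
  · obtain ⟨j', j1, j2⟩ : ∃ j' ∈ ν, ∀ z ∈ tp (R ν), ColLe c z (tp (R ν)) j → ColLe c z β j' := by
      rcases ((ho.mem top.1.1.tp).subset_iff_eq_or_mem βo).1 δβ with e | e
      · exact ⟨j, hj, fun z _ a => e ▸ a⟩
      · obtain ⟨i1, a1, a2⟩ := colLe_total cf top.1.1.tp hβ
        have u := union_mem νo hj a1
        exact ⟨_, u, fun z b1 b2 => (sa β hβ _ e z b1 _ u
          (a2.mono fun z a => mem_union.2 (.inr a))).1 (b2.mono fun z a => mem_union.2 (.inl a))⟩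
    refine ⟨_, Rδ j' j1, fun z z1 z2 z3 => ?_⟩
    have zδ := top.1.1.2.1 _ z1
    obtain ⟨η, hη, a1, a2⟩ := exists_least νo (P := fun η => fst z ∈ fst (T η)) (cov2 _ zδ)
    have a3 : fst z ∉ fst (R j') := fun a => mem_asymm a z2
    have a4 : j' ⊆ η := ((νo.mem hη).notMem_iff_subset (νo.mem j1)).1
      fun a => a3 ((mf j' _).2 (.inr ⟨η, a, a1⟩))
    have a5 : fst z ∉ fst (R η) := fun a => by
      rcases (mf η _).1 a with a | ⟨η', b1, b2⟩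
      · exact a3 ((mf j' _).2 (.inl a))
      · exact mem_irrefl _ (a2 η' (νo.mem_trans b1 hη) b2 b1)
    have a6 := (top.2 η hη).2.2.2.2 z z1 a1
    rw [p0 η hη] at a6
    exact (ms η hη).2.2 _ a6
      ((((st η hη).2 ((rq η hη).trans hq)).2.1 z a6).resolve_left a5)
      ((j2 _ (snd_mem_tp z1) z3).mono fun w a => mem_union.2 (.inr (a4 a)))
  · obtain ⟨ξ, a1, a2⟩ := cov α hα
    obtain ⟨z, -, b2, b3, y, b4, b5⟩ := blk ξ a1
    exact ⟨fst z, b2, y, b4, (δo.mem b2).subset_of_mem (b3 a2), b5⟩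

end Pool.Agent.FS.IndexedSquare
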