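import Pool.Agent.Lib.MP_a2bc17_lc.Defs

/-! Closed subadditive strongly unbounded colourings, read in a transitive class `M` of sets. -/

namespace Pool.Agent.FS.IndexedSquare

open ZFSet Pool.Agent.Lib.MP_329f2d_lc Pool.Agent.Lib.MP_a2bc17_lc

/-- The colour `c(α, β)` is at most `i`. -/
def ColLe (c α β i : V) : Prop := ∃ j, pair (pair α β) j ∈ c ∧ j ⊆ i

/-- Both subadditivity inequalities for `α < β < γ < μ`:
`c(α,γ) ≤ max (c(α,β), c(β,γ))` and `c(α,β) ≤ max (c(α,γ), c(β,γ))`. -/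
def Subadd (c μ ν : V) : Prop :=
  ∀ γ ∈ μ, ∀ β ∈ γ, ∀ α ∈ β, ∀ i ∈ ν, ColLe c β γ i → (ColLe c α β i ↔ ColLe c α γ i)

/-- For `β < μ` and `i < ν` the set `{α < β : c(α,β) ≤ i}` is closed below `β`. -/
def ClosedCol (c μ ν : V) : Prop :=
  ∀ β ∈ μ, ∀ i ∈ ν, ∀ δ ∈ β, δ ≠ ∅ → (∀ α ∈ δ, ∃ γ ∈ δ, α ∈ γ ∧ ColLe c γ β i) → ColLe c δ β i

/-- On the pairs of every set of `M` that is unbounded in `μ` the colours are unbounded in `ν`. -/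
def StrUnb (M : Set V) (c μ ν : V) : Prop :=
  ∀ X ∈ M, X ⊆ μ → Unb X μ → ∀ i ∈ ν, ∃ β ∈ X, ∃ α ∈ X, α ∈ β ∧ ¬ ColLe c α β i

end Pool.Agent.FS.IndexedSquare
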