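import Pool.Agent.FS.IndexedSquare.A

/-! The forcing that adds a weakly monotone partial function from `μ` to `θ` by initial segments. -/

namespace Pool.Agent.FS.IndexedSquare

open ZFSet Pool.Agent.Lib.MP_329f2d_lc Pool.Agent.Lib.MP_a2bc17_lc

set_option synthInstance.maxSize 100000

/-- The strict supremum of the values of a condition. -/
noncomputable def tp (q : V) : V := ⋃₀ img (fun p => insert (snd p) (snd p)) (snd q)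

/-- Conditions: an ordinal `a < μ` and a bounded weakly monotone partial function from `a` to `θ`. -/
def Cnd (N : Set V) (μ θ q : V) : Prop :=
  fst q ∈ μ ∧ (∀ p ∈ snd q, fst p ∈ fst q) ∧ q = pair (fst q) (snd q) ∧ q ∈ N ∧
    snd q ⊆ prod μ θ ∧ tp q ∈ θ ∧ ∀ p ∈ snd q, ∀ p' ∈ snd q, fst p ⊆ fst p' → snd p ⊆ snd p'

/-- End extension. -/
def Leq (N : Set V) (μ θ r q : V) : Prop :=
  Cnd N μ θ r ∧ Cnd N μ θ q ∧ fst q ⊆ fst r ∧ snd q ⊆ snd r ∧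
    ∀ p ∈ snd r, fst p ∈ fst q → p ∈ snd q

section
variable {K : Set V → Prop} [Cl K] {Γ : Type} [Countable Γ]
  (r s t u : Set V → (Γ → V) → V) [Tm K r] [Tm K s] [Tm K t] [Tm K u]
  (C : Set V → (Γ → V) → Set V) [Dc K C]
instance tm_tp : Tm K fun W v => tp (s W v) := by unfold tp; infer_instance
instance df_Cnd : Df K fun W v => Cnd (C W v) (r W v) (s W v) (t W v) := by
  unfold Cnd; infer_instance
instance df_Leq : Df K fun W v => Leq (C W v) (r W v) (s W v) (t W v) (u W v) := by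
  unfold Leq; infer_instance
end

theorem mem_tp {q z : V} : z ∈ tp q ↔ ∃ p ∈ snd q, z = snd p ∨ z ∈ snd p := by
  simp only [tp, mem_sUnion, mem_img]
  constructor
  · rintro ⟨_, ⟨p, a, rfl⟩, b⟩
    exact ⟨p, a, mem_insert_iff.1 b⟩
  · rintro ⟨p, a, b⟩
    exact ⟨_, ⟨p, a, rfl⟩, mem_insert_iff.2 b⟩

theorem snd_mem_tp {q p : V} (h : p ∈ snd q) : snd p ∈ tp q := mem_tp.2 ⟨p, h, .inl rfl⟩

theorem tp_mem {q θ n : V} (ho : IsOrdinal θ) (hn : n ∈ θ) (h : ∀ p ∈ snd q, snd p ∈ n) :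
    tp q ∈ θ :=
  (isOrdinal_sUnion fun x hx => by
    obtain ⟨p, a, rfl⟩ := mem_img.1 hx
    exact isOrdinal_succ ((ho.mem hn).mem (h p a))).mem_of_subset_of_mem ho (fun z hz => by
      obtain ⟨p, a, rfl | b⟩ := mem_tp.1 hz
      exacts [h p a, (ho.mem hn).mem_trans b (h p a)]) hn

variable {N : Set V} {μ θ Q H : V}

theorem Cnd.mem {q : V} (h : Cnd N μ θ q) : q ∈ N := h.2.2.2.1

theorem Cnd.tp {q : V} (h : Cnd N μ θ q) : tp q ∈ θ := h.2.2.2.2.2.1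

theorem Cnd.ap_eq {q p : V} (h : Cnd N μ θ q) (hp : p ∈ snd q) : ap (snd q) (fst p) = snd p := by
  obtain ⟨x, -, y, -, rfl⟩ := mem_prod.1 (h.2.2.2.2.1 hp)
  rw [fst_pair, snd_pair]
  refine Pool.Agent.Lib.MP_329f2d_lc.ap_eq hp fun z hz => ?_
  have a := h.2.2.2.2.2.2 _ hp _ hz (by simp)
  have b := h.2.2.2.2.2.2 _ hz _ hp (by simp)
  rw [snd_pair, snd_pair] at a b
  ext w
  exact ⟨fun c => b c, fun c => a c⟩

theorem Cnd.refl {q : V} (h : Cnd N μ θ q) : Leq N μ θ q q :=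
  ⟨h, h, fun _ a => a, fun _ a => a, fun _ a _ => a⟩

theorem Leq.trans {p q r : V} (h1 : Leq N μ θ p q) (h2 : Leq N μ θ q r) : Leq N μ θ p r :=
  ⟨h1.1, h2.2.1, fun _ a => h1.2.2.1 (h2.2.2.1 a), fun _ a => h1.2.2.2.1 (h2.2.2.2.1 a),
    fun γ a b => h2.2.2.2.2 γ (h1.2.2.2.2 γ a (h2.2.2.1 b)) b⟩

theorem Leq.snd_sub {p q : V} (h : Leq N μ θ p q) : snd q ⊆ snd p := h.2.2.2.1

theorem lb_leq (hN : ZF N) (hμ : Regu N μ) (ho : IsOrdinal θ) {m m' n D : V} (hD : D ∈ N)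
    (hm : m ∈ μ) (hm' : m' ∈ μ) (hn : n ∈ θ)
    (h1 : ∀ q ∈ D, Cnd N μ θ q ∧ fst q ⊆ m' ∧ tp q ⊆ n)
    (h2 : ∀ p ∈ D, ∀ q ∈ D, ∃ r, Leq N μ θ r p ∧ Leq N μ θ r q) :
    Cnd N μ θ (lb m D) ∧ ∀ q ∈ D, Leq N μ θ (lb m D) q := by
  have hc : Cnd N μ θ (lb m D) := by
    refine ⟨?_, fun γ hγ => ?_, by simp [lb],
      tm2 (K := ZF) (t := fun _ m D => lb m D) hN (hN.mem hm hμ.1.1) hD, fun γ hγ => ?_,
      tp_mem ho hn fun γ hγ => ?_, fun p hp p' hp' a => ?_⟩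
    · rw [lb, fst_pair]
      refine union_mem hμ.ord hm (sUnion_mem hμ.ord hm' fun x hx => ?_)
      obtain ⟨q, hq, rfl⟩ := mem_img.1 hx
      exact ⟨(h1 q hq).1.1, (h1 q hq).2.1⟩
    · obtain ⟨q, hq, hγ⟩ := mem_snd_lb.1 hγ
      exact mem_fst_lb.2 (.inr ⟨q, hq, (h1 q hq).1.2.1 _ hγ⟩)
    · obtain ⟨q, hq, hγ⟩ := mem_snd_lb.1 hγ
      exact (h1 q hq).1.2.2.2.2.1 hγ
    · obtain ⟨q, hq, hγ⟩ := mem_snd_lb.1 hγ
      exact (h1 q hq).2.2 (snd_mem_tp hγ)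
    · obtain ⟨q, hq, hp⟩ := mem_snd_lb.1 hp
      obtain ⟨q', hq', hp'⟩ := mem_snd_lb.1 hp'
      obtain ⟨r, b, c⟩ := h2 q hq q' hq'
      exact b.1.2.2.2.2.2.2 p (b.snd_sub hp) p' (c.snd_sub hp') a
  refine ⟨hc, fun q hq => ⟨hc, (h1 q hq).1, fun γ hγ => mem_fst_lb.2 (.inr ⟨q, hq, hγ⟩),
    fun γ a => mem_snd_lb.2 ⟨q, hq, a⟩, fun γ a hγ => ?_⟩⟩
  obtain ⟨p, hp, a⟩ := mem_snd_lb.1 a
  obtain ⟨r, b, c⟩ := h2 p hp q hq
  exact c.2.2.2.2 γ (b.snd_sub a) hγ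

theorem pad' (hN : ZF N) (hμ : Regu N μ) (ho : IsOrdinal θ) {m q : V} (hm : m ∈ μ)
    (hq : Cnd N μ θ q) : ∃ r, Leq N μ θ r q ∧ m ⊆ fst r :=
  ⟨lb m {q}, (lb_leq hN hμ ho (hN.singleton hq.mem) hm hq.1 hq.tp
    (fun p hp => by rw [mem_singleton.1 hp]; exact ⟨hq, fun _ a => a, fun _ a => a⟩)
    fun p hp r hr => ⟨q, by rw [mem_singleton.1 hp]; exact hq.refl,
      by rw [mem_singleton.1 hr]; exact hq.refl⟩).2 q (by simp),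
    fun _ a => mem_fst_lb.2 (.inl a)⟩

theorem chain' (hN : ZF N) (hμ : Regu N μ) (hθ : Regu N θ) (hμθ : μ ⊆ θ) {G p σ : V}
    (hG : G ∈ N) (hp : Cnd N μ θ p) (hσ : σ ∈ μ)
    (hs : ∀ ξ ∈ σ, ∀ q, Cnd N μ θ q → Leq N μ θ (ap G (pair ξ q)) q) (ξ : V) :
    ξ ∈ insert σ σ →
      Leq N μ θ (Bs G ∅ p ξ) p ∧ ∀ η ∈ ξ, Leq N μ θ (Bs G ∅ p ξ) (PP G ∅ p η) := by
  induction ξ using ZFSet.inductionOn with
  | _ ξ ih =>
  intro hξ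
  have ho := isOrdinal_succ (hμ.ord.mem hσ)
  have hξμ : ξ ∈ μ := hμ.ord.mem_trans hξ (hμ.succ hN hσ)
  have hξN := hN.mem hξμ hμ.1.1
  have he := hN.empty
  have a0 : ∀ η ∈ ξ, η ∈ σ := fun η hη => by
    rcases mem_insert_iff.1 hξ with rfl | h
    exacts [hη, (hμ.ord.mem hσ).mem_trans hη h]
  have a1 : ∀ η ∈ ξ, Leq N μ θ (PP G ∅ p η) (Bs G ∅ p η) := fun η hη => by
    rw [PP_eq]; exact hs η (a0 η hη) _ (ih η hη (ho.mem_trans hη hξ)).1.1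
  have a2 : ∀ η ∈ ξ, Leq N μ θ (PP G ∅ p η) p := fun η hη =>
    (a1 η hη).trans (ih η hη (ho.mem_trans hη hξ)).1
  have a3 : ∀ η ∈ ξ, ∀ η' ∈ η, Leq N μ θ (PP G ∅ p η) (PP G ∅ p η') := fun η hη η' hη' =>
    (a1 η hη).trans ((ih η hη (ho.mem_trans hη hξ)).2 η' hη')
  obtain ⟨m, hm, hm'⟩ := hμ.bdd hξμ (t := fun η => fst (PP G ∅ p η))
    (tm4 (K := ZF) (t := fun _ G e p ξ => graph (fun η => fst (PP G e p η)) ξ) hN hG he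
      hp.mem hξN) fun η hη => (a1 η hη).1.1
  obtain ⟨n, hn, hn'⟩ := hθ.bdd (hμθ hξμ) (t := fun η => tp (PP G ∅ p η))
    (tm4 (K := ZF) (t := fun _ G e p ξ => graph (fun η => tp (PP G e p η)) ξ) hN hG he
      hp.mem hξN) fun η hη => (a1 η hη).1.tp
  have key := (lb_leq hN hμ hθ.ord (D := insert p (img (PP G ∅ p) ξ))
    (tm4 (K := ZF) (t := fun _ G e p ξ => insert p (img (fun η => PP G e p η) ξ)) hN hG he
      hp.mem hξN) (ap_mem_of_func hμ.zero isFunc_empty ξ) (union_mem hμ.ord hp.1 hm)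
      (union_mem hθ.ord hp.tp hn) (fun q hq => ?_) fun q hq r hr => ?_).2
  · exact ⟨key p (mem_insert _ _), fun η hη => key _ (mem_insert_of_mem _ (mem_img.2 ⟨η, hη, rfl⟩))⟩
  · rcases mem_insert_iff.1 hq with rfl | hq
    · exact ⟨hp, fun _ a => mem_union.2 (.inl a), fun _ a => mem_union.2 (.inl a)⟩
    · obtain ⟨η, hη, rfl⟩ := mem_img.1 hq
      exact ⟨(a1 η hη).1, fun _ a => mem_union.2 (.inr (hm' η hη a)),
        fun _ a => mem_union.2 (.inr (hn' η hη a))⟩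
  · rcases mem_insert_iff.1 hq with rfl | hq <;> rcases mem_insert_iff.1 hr with rfl | hr
    · exact ⟨_, hp.refl, hp.refl⟩
    · obtain ⟨η, hη, rfl⟩ := mem_img.1 hr
      exact ⟨_, a2 η hη, (a1 η hη).1.refl⟩
    · obtain ⟨η, hη, rfl⟩ := mem_img.1 hq
      exact ⟨_, (a1 η hη).1.refl, a2 η hη⟩
    · obtain ⟨η, hη, rfl⟩ := mem_img.1 hq
      obtain ⟨η', hη', rfl⟩ := mem_img.1 hr
      rcases ((hμ.ord.mem hξμ).mem hη).mem_trichotomous ((hμ.ord.mem hξμ).mem hη') with h | rfl | h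
      · exact ⟨_, a3 η' hη' η h, (a1 η' hη').1.refl⟩
      · exact ⟨_, (a1 η hη).1.refl, (a1 η hη).1.refl⟩
      · exact ⟨_, (a1 η hη).1.refl, a3 η hη η' h⟩

/-- `Q` is the forcing. -/
structure IsP (N : Set V) (μ θ Q : V) : Prop where
  mem : Q ∈ N
  po : Po Q
  iff : ∀ r q, pair r q ∈ Q ↔ Leq N μ θ r q

theorem exists_P (hN : ZFC N) (hμ : Regu N μ) (hθ : Regu N θ) : ∃ Q, IsP N μ θ Q := by
  have hz : ZF N := hN.1.1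
  obtain ⟨pw, h1, h2⟩ := hN.2 (prod μ θ)
    (tm2 (K := ZF) (t := fun _ μ θ => prod μ θ) hz hμ.1.1 hθ.1.1)
  have hQ := (cls2 (K := ZF) (S := fun W μ θ z => Leq W μ θ (fst z) (snd z)) hz hμ.1.1
    hθ.1.1).sep hz (tm2 (K := ZF) (t := fun _ μ pw => prod (prod μ pw) (prod μ pw)) hz hμ.1.1 h1)
  set Q := ZFSet.sep _ (prod (prod μ pw) (prod μ pw)) with hQd
  have c : ∀ q, Cnd N μ θ q → q ∈ prod μ pw := fun q hq => by
    rw [hq.2.2.1]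
    exact pair_mem_prod.2 ⟨hq.1, h2 _ (tm1 (K := ZF) (t := fun _ q => snd q) hz hq.mem)
      hq.2.2.2.2.1⟩
  have hi : ∀ r q, pair r q ∈ Q ↔ Leq N μ θ r q := fun r q => by
    simp only [hQd, mem_sep, fst_pair, snd_pair]
    exact ⟨fun a => a.2, fun a => ⟨pair_mem_prod.2 ⟨c _ a.1, c _ a.2.1⟩, a⟩⟩
  have c0 : Cnd N μ θ (pair ∅ ∅) := ⟨by simpa using hμ.zero, by simp, by simp,
    hz.opair hz.empty hz.empty, by simp, tp_mem hθ.ord hθ.zero (by simp), by simp⟩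
  refine ⟨Q, hQ, ⟨fun h => notMem_empty _ (h ▸ (hi _ _).2 c0.refl), fun z hz' => ?_,
    fun p q r a b => (hi _ _).2 (((hi _ _).1 a).trans ((hi _ _).1 b))⟩, hi⟩
  obtain ⟨p, -, q, -, rfl⟩ := mem_prod.1 (mem_sep.1 hz').1
  have := (hi _ _).1 hz'
  exact ⟨p, q, rfl, (hi _ _).2 this.1.refl, (hi _ _).2 this.2.1.refl⟩

theorem IsP.dirCl (hN : ZF N) (hμ : Regu N μ) (hθ : Regu N θ) (hμθ : μ ⊆ θ) (hQ : IsP N μ θ Q) :
    DirCl N Q μ := by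
  rintro D hD h1 ⟨α, hα, f, hf, ho⟩ h2
  simp only [hQ.iff] at h1 h2 ⊢
  obtain ⟨m, hm, hm'⟩ := hμ.bdd hα (t := fun x => fst (ap f x))
    (tm2 (K := ZF) (t := fun _ f α => graph (fun x => fst (ap f x)) α) hN hf (hN.mem hα hμ.1.1))
    fun x hx => (h1 _ (isFunc_ap ho.1 hx).2).1.1
  obtain ⟨n, hn, hn'⟩ := hθ.bdd (hμθ hα) (t := fun x => tp (ap f x))
    (tm2 (K := ZF) (t := fun _ f α => graph (fun x => tp (ap f x)) α) hN hf (hN.mem hα hμ.1.1))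
    fun x hx => (h1 _ (isFunc_ap ho.1 hx).2).1.tp
  obtain ⟨a, b⟩ := lb_leq hN hμ hθ.ord hD hm hm hn (fun q hq => ⟨(h1 q hq).1, by
    obtain ⟨x, hx, rfl⟩ := ho.ap hq
    exact ⟨hm' x hx, hn' x hx⟩⟩) h2
  exact ⟨_, a.refl, b⟩

section
variable (hN : ZFC N) (hμ : Regu N μ) (hθ : Regu N θ) (hμθ : μ ⊆ θ) (hQ : IsP N μ θ Q)
include hN hQ

theorem step_fun' {σ : V} (hσ : σ ∈ N) {R : V → V → V → Prop}
    (hR : Cls2 N fun z w => Cnd N μ θ (snd z) → R (fst z) (snd z) w)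
    (h : ∀ ξ ∈ σ, ∀ q, Cnd N μ θ q → ∃ w ∈ N, R ξ q w) :
    ∃ G ∈ N, ∀ ξ ∈ σ, ∀ q, Cnd N μ θ q → R ξ q (ap G (pair ξ q)) := by
  have hz : ZF N := hN.1.1
  obtain ⟨G, h1, -, -, h2⟩ := Cls2.choice (W := N) hN.1 hR
    (tm2 (K := ZF) (t := fun _ σ Q => prod σ (⋃₀ ⋃₀ Q)) hz hσ hQ.mem) fun z hz' => by
      obtain ⟨ξ, hξ, q, -, rfl⟩ := mem_prod.1 hz'
      by_cases hq : Cnd N μ θ q
      · obtain ⟨w, a, b⟩ := h ξ hξ q hq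
        exact ⟨w, a, fun _ => by simpa using b⟩
      · exact ⟨∅, hz.empty, fun a => absurd (by simpa using a) hq⟩
  refine ⟨G, h1, fun ξ hξ q hq => ?_⟩
  simpa using h2 (pair ξ q) (pair_mem_prod.2 ⟨hξ, left_mem_sUnion ((hQ.iff _ _).2 hq.refl)⟩)
    (by simpa using hq)

variable (hH : Generic N Q H)
include hH

theorem meet' {S : V → Prop} (hS : Cls N S) {p : V} (hp : p ∈ H)
    (hd : ∀ q, Leq N μ θ q p → ∃ r, Leq N μ θ r q ∧ S r) : ∃ r ∈ H, Leq N μ θ r p ∧ S r := by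
  simpa only [hQ.iff] using Generic.meet hN.1.1 hQ.mem hQ.po hH hS hp
    (by simpa only [hQ.iff] using hd)

theorem total_below' {F a b : V} (ha : a ∈ N) (hb : b ∈ N) (hF : F ∈ N) (hn : FunNm Q F a b)
    (h : ∀ x ∈ a, ∃ y ∈ b, ∃ r ∈ H, In3 F r x y) :
    ∃ p ∈ H, ∀ q, Leq N μ θ q p → ∀ x ∈ a, ∃ r, Leq N μ θ r q ∧ ∃ y ∈ b, In3 F r x y := by
  obtain ⟨p, hp, h1⟩ := Generic.meet' hN.1.1 hQ.mem hQ.po hH (cls4 (K := ZF)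
    (S := fun _ Q F a b p => (∀ q, pair q p ∈ Q → ∀ x ∈ a, ∃ r, pair r q ∈ Q ∧
      ∃ y ∈ b, In3 F r x y) ∨ ∃ x ∈ a, ∀ r, pair r p ∈ Q → ∀ y ∈ b, ¬ In3 F r x y)
    hN.1.1 hQ.mem hF ha hb) fun p hp => by
      by_cases hc : ∀ q, pair q p ∈ Q → ∀ x ∈ a, ∃ r, pair r q ∈ Q ∧ ∃ y ∈ b, In3 F r x y
      · exact ⟨p, hp, .inl hc⟩
      · push Not at hc
        obtain ⟨q, a1, x, a2, a3⟩ := hc
        exact ⟨q, a1, .inr ⟨x, a2, a3⟩⟩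
  rcases h1 with h1 | ⟨x, hx, h1⟩
  · exact ⟨p, hp, by simpa only [hQ.iff] using h1⟩
  · obtain ⟨y, hy, r, hr, h2⟩ := h x hx
    obtain ⟨t, -, a1, a2⟩ := hH.1.meet hp hr
    exact absurd (hn.mono _ _ _ _ h2 a2) (h1 t a1 y hy)

omit hN in
theorem Z_iff' {r γ : V} (hr : r ∈ H) (hγ : fst γ ∈ fst r) :
    γ ∈ (⋃₀ img snd H : V) ↔ γ ∈ snd r := by
  simp only [mem_sUnion, mem_img]
  refine ⟨?_, fun a => ⟨_, ⟨r, hr, rfl⟩, a⟩⟩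
  rintro ⟨_, ⟨q, hq, rfl⟩, a⟩
  obtain ⟨t, -, a1, a2⟩ := hH.1.meet hr hq
  exact ((hQ.iff _ _).1 a1).2.2.2.2 γ (((hQ.iff _ _).1 a2).snd_sub a) hγ

include hμ hθ

theorem long' {δ : V} (hδ : δ ∈ μ) : ∃ r ∈ H, Cnd N μ θ r ∧ δ ⊆ fst r := by
  obtain ⟨p, hp, -⟩ := hH.1.exists_mem
  obtain ⟨r, hr, h0, h⟩ := meet' hN hQ hH (cls1 (K := ZF) (S := fun _ δ r => δ ⊆ fst r) hN.1.1
    (hN.1.1.mem hδ hμ.1.1)) hp fun q hq => pad' hN.1.1 hμ hθ.ord hδ hq.1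
  exact ⟨r, hr, h0.1, h⟩

include hμθ

theorem no_new' (hc : N.Countable) {a b f : V} (ha : a ∈ μ) (hb : b ∈ N) (hf : f ∈ Ext N H)
    (h : IsFunc a b f) : f ∈ N := by
  have hz : ZF N := hN.1.1
  have haN := hz.mem ha hμ.1.1
  obtain ⟨F, hF, hn, hv⟩ := exists_funNm hz hQ.mem hQ.po hH hc haN hb hf fun x y y' a1 a2 =>
    (h.2 x (pair_mem_prod.1 (h.1 a1)).1).unique a1 a2
  obtain ⟨p, hp, h1⟩ := total_below' hN hQ hH haN hb hF hn fun x hx =>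
    ⟨_, (isFunc_ap h hx).2, (hv x hx _ (isFunc_ap h hx).2).1 (isFunc_ap h hx).1⟩
  have hpN := Generic.mem hz hQ.mem hH hp
  obtain ⟨G, hG, h2⟩ := step_fun' hN hQ haN
    (R := fun ξ q w => Leq N μ θ w q ∧ (Leq N μ θ q p → ∃ y ∈ b, In3 F w ξ y))
    (cls5 (K := ZF) (S := fun W μ θ p b F z => Cnd W μ θ (snd (fst z)) →
      Leq W μ θ (snd z) (snd (fst z)) ∧ (Leq W μ θ (snd (fst z)) p →
        ∃ y ∈ b, In3 F (snd z) (fst (fst z)) y)) hz hμ.1.1 hθ.1.1 hpN hb hF) fun ξ hξ q hq => by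
      by_cases h3 : Leq N μ θ q p
      · obtain ⟨r, a1, a2⟩ := h1 q h3 ξ hξ
        exact ⟨r, a1.1.mem, a1, fun _ => a2⟩
      · exact ⟨q, hq.mem, hq.refl, fun a => absurd a h3⟩
  obtain ⟨r, hr, -, h3⟩ := meet' hN hQ hH (cls3 (K := ZF)
    (S := fun _ F a b r => ∀ x ∈ a, ∃ y ∈ b, In3 F r x y) hz hF haN hb) hp fun q hq => by
      have ch := chain' hz hμ hθ hμθ hG hq.1 ha fun ξ hξ q hq => (h2 ξ hξ q hq).1
      refine ⟨_, (ch a (mem_insert _ _)).1, fun x hx => ?_⟩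
      have c1 := (ch x (mem_insert_of_mem _ hx)).1
      obtain ⟨y, hy, h4⟩ := (h2 x hx _ c1.1).2 (c1.trans hq)
      rw [← PP_eq] at h4
      exact ⟨y, hy, hn.mono _ _ _ _ h4 ((hQ.iff _ _).2 ((ch a (mem_insert _ _)).2 x hx))⟩
  convert (cls2 (K := ZF) (S := fun _ F r z => In3 F r (fst z) (snd z)) hz hF
    (Generic.mem hz hQ.mem hH hr)).sep hz (tm2 (K := ZF) (t := fun _ a b => prod a b) hz haN hb)
    using 1
  ext z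
  simp only [mem_sep]
  constructor
  · intro hz'
    obtain ⟨x, hx, y, hy, rfl⟩ := mem_prod.1 (h.1 hz')
    obtain ⟨y', a1, a2⟩ := h3 x hx
    rw [(h.2 x hx).unique hz' ((hv x hx y' a1).2 ⟨r, hr, a2⟩)]
    exact ⟨pair_mem_prod.2 ⟨hx, a1⟩, by simpa using a2⟩
  · rintro ⟨a1, a2⟩
    obtain ⟨x, hx, y, hy, rfl⟩ := mem_prod.1 a1
    exact (hv x hx y hy).2 ⟨r, hr, by simpa using a2⟩

end

theorem pigeon' {M : Set V} (hM : ZFC M) {γ ν Z c β : V} (hb : Big M γ ν) (ho : IsOrdinal γ)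
    (hγ : γ ∈ M) (hν : ν ∈ M) (hZ : Z ∈ M) (hc : c ∈ M) (hβ : β ∈ M) (hu : Unb (img fst Z) γ)
    (ht : ∀ z ∈ Z, fst z ∈ γ → ∃ i ∈ ν, ColLe c (snd z) β i) :
    ∃ i ∈ ν, ∀ α ∈ γ, ∃ z ∈ Z, fst z ∈ γ ∧ α ∈ fst z ∧ ColLe c (snd z) β i := by
  have hz : ZF M := hM.1.1
  by_contra hcon
  obtain ⟨k, hk, -, -, k2⟩ := Cls2.choice (W := M) hM.1
    (R := fun i α => α ∈ γ ∧ ∀ z ∈ Z, fst z ∈ γ → α ∈ fst z → ¬ ColLe c (snd z) β i)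
    (cls4 (K := ZF) (S := fun _ γ Z c β w => snd w ∈ γ ∧ ∀ z ∈ Z, fst z ∈ γ → snd w ∈ fst z →
      ¬ ColLe c (snd z) β (fst w)) hz hγ hZ hc hβ) hν fun i hi => by
      by_contra h2
      refine hcon ⟨i, hi, fun α hα => ?_⟩
      by_contra h3
      exact h2 ⟨α, hz.mem hα hγ, hα, fun z a1 a2 a3 a4 => h3 ⟨z, a1, a2, a3, a4⟩⟩
  obtain ⟨b, hb1, hb2⟩ := hb (fun x => ap k x) ν (mem_insert _ _)
    (tm2 (K := ZF) (t := fun _ k τ => graph (fun x => ap k x) τ) hz hk hν) fun x hx => (k2 x hx).1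
  obtain ⟨_, a0, a2, a3⟩ := hu b hb1
  obtain ⟨z, a1, rfl⟩ := mem_img.1 a0
  obtain ⟨i, hi, a4⟩ := ht z a1 a2
  exact (k2 i hi).2 z a1 a2 ((ho.mem a2).mem_trans (hb2 i hi) a3) a4

end Pool.Agent.FS.IndexedSquare
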